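import Mathlib

/-! The integers are not covered by finitely many families `A σ^k - B σ^l + C`. -/

namespace MP302.H50

open Filter Topology

theorem gap (A B σ : ℂ) (hA : A ≠ 0) (hB : B ≠ 0) (hσ : 1 < ‖σ‖) :
    ∃ δ : ℝ, 0 < δ ∧ ∀ t : ℤ, A * σ ^ t - B ≠ 0 → δ ≤ ‖A * σ ^ t - B‖ := by
  classical
  have hρ0 : 0 < ‖σ‖ := by linarith
  have hA' : 0 < ‖A‖ := norm_pos_iff.mpr hA
  have hB' : 0 < ‖B‖ := norm_pos_iff.mpr hB
  obtain ⟨T1, hT1⟩ := pow_unbounded_of_one_lt (2 * ‖A‖ / ‖B‖) hσ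
  obtain ⟨T2, hT2⟩ := pow_unbounded_of_one_lt (2 * ‖B‖ / ‖A‖) hσ
  set I : Finset ℤ := (Finset.Icc (-(T1 : ℤ)) T2).filter (fun t => A * σ ^ t - B ≠ 0) with hI
  -- the minimum over I
  obtain ⟨m, hm, hmI⟩ : ∃ m : ℝ, 0 < m ∧ ∀ t ∈ I, m ≤ ‖A * σ ^ t - B‖ := by
    by_cases hne : I.Nonempty
    · refine ⟨I.inf' hne (fun t => ‖A * σ ^ t - B‖), ?_, fun t ht => Finset.inf'_le _ ht⟩
      rw [Finset.lt_inf'_iff]
      intro t ht
      exact norm_pos_iff.mpr (Finset.mem_filter.mp ht).2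
    · exact ⟨1, one_pos, fun t ht => absurd ⟨t, ht⟩ hne⟩
  refine ⟨min m (‖B‖ / 2), lt_min hm (by linarith), ?_⟩
  intro t ht
  by_cases h1 : t < -(T1 : ℤ)
  · refine (min_le_right _ _).trans ?_
    have h2 : ‖A * σ ^ t‖ ≤ ‖B‖ / 2 := by
      rw [norm_mul, norm_zpow]
      have h3 : ‖σ‖ ^ t ≤ ‖σ‖ ^ (-(T1 : ℤ)) := zpow_le_zpow_right₀ hσ.le h1.le
      rw [zpow_neg, zpow_natCast] at h3
      have h4 : 0 < ‖σ‖ ^ T1 := pow_pos hρ0 _
      calc ‖A‖ * ‖σ‖ ^ t ≤ ‖A‖ * (‖σ‖ ^ T1)⁻¹ := mul_le_mul_of_nonneg_left h3 hA'.le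
        _ ≤ ‖B‖ / 2 := by
          rw [← div_eq_mul_inv, div_le_iff₀ h4]
          rw [div_lt_iff₀ hB'] at hT1
          linarith
    have h5 : ‖B‖ ≤ ‖A * σ ^ t - B‖ + ‖A * σ ^ t‖ := by
      have : B = A * σ ^ t - (A * σ ^ t - B) := by ring
      calc ‖B‖ = ‖A * σ ^ t - (A * σ ^ t - B)‖ := by rw [← this]
        _ ≤ ‖A * σ ^ t‖ + ‖A * σ ^ t - B‖ := norm_sub_le _ _
        _ = _ := by ring
    linarith
  · push Not at h1
    by_cases h2 : t ≤ T2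
    · refine (min_le_left _ _).trans (hmI t ?_)
      rw [hI, Finset.mem_filter, Finset.mem_Icc]
      exact ⟨⟨h1, h2⟩, ht⟩
    · push Not at h2
      refine (min_le_right _ _).trans ?_
      have h3 : ‖σ‖ ^ (T2 : ℤ) ≤ ‖σ‖ ^ t := zpow_le_zpow_right₀ hσ.le h2.le
      rw [zpow_natCast] at h3
      have h4 : 2 * ‖B‖ ≤ ‖A * σ ^ t‖ := by
        rw [norm_mul, norm_zpow]
        rw [div_lt_iff₀ hA'] at hT2
        nlinarith
      have h5 : ‖A * σ ^ t‖ ≤ ‖A * σ ^ t - B‖ + ‖B‖ := by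
        calc ‖A * σ ^ t‖ = ‖(A * σ ^ t - B) + B‖ := by ring_nf
          _ ≤ _ := norm_add_le _ _
      linarith

theorem pow_le_of (ρ x : ℝ) (hρ : 1 < ρ) : ∃ K : ℕ, ∀ (J : ℕ) (l : ℤ), ρ ^ l ≤ ρ ^ J * x →
    l ≤ J + K := by
  obtain ⟨K, hK⟩ := pow_unbounded_of_one_lt x hρ
  refine ⟨K, ?_⟩
  intro J l h
  by_contra hcon
  push Not at hcon
  have hρ0 : 0 < ρ := by linarith
  have h1 : ρ ^ ((J + K : ℕ) : ℤ) ≤ ρ ^ l := zpow_le_zpow_right₀ hρ.le (by push_cast; omega)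
  rw [zpow_natCast, pow_add] at h1
  have h2 : 0 < ρ ^ J := pow_pos hρ0 _
  have h3 : ρ ^ J * x < ρ ^ J * ρ ^ K := mul_lt_mul_of_pos_left hK h2
  linarith

/-- bound for the exponents. -/
theorem expo (A B C σ : ℂ) (hσ : 1 < ‖σ‖) : ∃ K : ℕ, ∀ (J : ℕ) (n : ℕ), (n : ℝ) ≤ ‖σ‖ ^ J →
    (∃ k l : ℤ, (n : ℂ) = A * σ ^ k - B * σ ^ l + C) → (n : ℂ) = C ∨
      ∃ k l : ℤ, k ≤ J + K ∧ l ≤ J + K ∧ (n : ℂ) = A * σ ^ k - B * σ ^ l + C := by
  have hρ0 : 0 < ‖σ‖ := by linarith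
  have hσ0 : σ ≠ 0 := by
    intro h; rw [h, norm_zero] at hσ; linarith
  have hnC : ∀ (J n : ℕ), (n : ℝ) ≤ ‖σ‖ ^ J → ‖(n : ℂ) - C‖ ≤ ‖σ‖ ^ J * (1 + ‖C‖) := by
    intro J n hn
    have h1 : (1 : ℝ) ≤ ‖σ‖ ^ J := one_le_pow₀ hσ.le
    calc ‖(n : ℂ) - C‖ ≤ ‖(n : ℂ)‖ + ‖C‖ := norm_sub_le _ _
      _ = n + ‖C‖ := by simp
      _ ≤ ‖σ‖ ^ J * (1 + ‖C‖) := by nlinarith [norm_nonneg C]
  by_cases hA : A = 0
  · by_cases hB : B = 0
    · refine ⟨0, fun J n hn ⟨k, l, h⟩ => Or.inl ?_⟩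
      rw [h, hA, hB]; ring
    · have hB' : 0 < ‖B‖ := norm_pos_iff.mpr hB
      obtain ⟨K, hK⟩ := pow_le_of ‖σ‖ ((1 + ‖C‖) / ‖B‖) hσ
      refine ⟨K, fun J n hn ⟨k, l, h⟩ => Or.inr ⟨0, l, by omega, ?_, by rw [h, hA]; ring⟩⟩
      apply hK
      have h1 := hnC J n hn
      have h2 : (n : ℂ) - C = -(B * σ ^ l) := by rw [h, hA]; ring
      rw [h2, norm_neg, norm_mul, norm_zpow] at h1
      rw [← mul_div_assoc, le_div_iff₀ hB']
      linarith
  · by_cases hB : B = 0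
    · have hA' : 0 < ‖A‖ := norm_pos_iff.mpr hA
      obtain ⟨K, hK⟩ := pow_le_of ‖σ‖ ((1 + ‖C‖) / ‖A‖) hσ
      refine ⟨K, fun J n hn ⟨k, l, h⟩ => Or.inr ⟨k, 0, ?_, by omega, by rw [h, hB]; ring⟩⟩
      apply hK
      have h1 := hnC J n hn
      have h2 : (n : ℂ) - C = A * σ ^ k := by rw [h, hB]; ring
      rw [h2, norm_mul, norm_zpow] at h1
      rw [← mul_div_assoc, le_div_iff₀ hA']
      linarith
    · obtain ⟨δ, hδ, hgap⟩ := gap A B σ hA hB hσ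
      obtain ⟨δ', hδ', hgap'⟩ := gap B A σ hB hA hσ
      obtain ⟨K, hK⟩ := pow_le_of ‖σ‖ ((1 + ‖C‖) / δ) hσ
      obtain ⟨K', hK'⟩ := pow_le_of ‖σ‖ ((1 + ‖C‖) / δ') hσ
      refine ⟨max K K', fun J n hn ⟨k, l, h⟩ => ?_⟩
      by_cases h0 : A * σ ^ k - B * σ ^ l = 0
      · left; rw [h, h0, zero_add]
      · right
        have h1 := hnC J n hn
        have h2 : (n : ℂ) - C = A * σ ^ k - B * σ ^ l := by rw [h]; ring
        rw [h2] at h1
        refine ⟨k, l, ?_, ?_, h⟩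
        · have h3 : A * σ ^ k - B * σ ^ l = -(σ ^ k * (B * σ ^ (l - k) - A)) := by
            rw [zpow_sub₀ hσ0]
            field_simp
            ring
          rw [h3, neg_eq_zero] at h0
          have h4 := hgap' (l - k) (right_ne_zero_of_mul h0)
          rw [h3, norm_neg, norm_mul, norm_zpow] at h1
          have h5 : ‖σ‖ ^ k * δ' ≤ ‖σ‖ ^ J * (1 + ‖C‖) :=
            (mul_le_mul_of_nonneg_left h4 (zpow_nonneg hρ0.le k)).trans h1
          have h6 := hK' J k (by rw [← mul_div_assoc, le_div_iff₀ hδ']; exact h5)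
          have h7 : (K' : ℤ) ≤ (max K K' : ℕ) := by exact_mod_cast le_max_right K K'
          push_cast at h7 ⊢
          omega
        · have h3 : A * σ ^ k - B * σ ^ l = σ ^ l * (A * σ ^ (k - l) - B) := by
            rw [zpow_sub₀ hσ0]
            field_simp
          rw [h3] at h0
          have h4 := hgap (k - l) (right_ne_zero_of_mul h0)
          rw [h3, norm_mul, norm_zpow] at h1
          have h5 : ‖σ‖ ^ l * δ ≤ ‖σ‖ ^ J * (1 + ‖C‖) :=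
            (mul_le_mul_of_nonneg_left h4 (zpow_nonneg hρ0.le l)).trans h1
          have h6 := hK J l (by rw [← mul_div_assoc, le_div_iff₀ hδ]; exact h5)
          have h7 : (K : ℤ) ≤ (max K K' : ℕ) := by exact_mod_cast le_max_left K K'
          push_cast at h7 ⊢
          omega

/-- number of the values up to `‖σ‖ ^ J`. -/
theorem single (A B C σ : ℂ) (hσ : 1 < ‖σ‖) : ∃ K : ℕ, ∀ (J : ℕ) (S : Finset ℕ),
    (∀ n ∈ S, (n : ℝ) ≤ ‖σ‖ ^ J ∧ ∃ k l : ℤ, (n : ℂ) = A * σ ^ k - B * σ ^ l + C) →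
    S.card ≤ (J + K) ^ 2 + 1 := by
  classical
  have hρ0 : 0 < ‖σ‖ := by linarith
  obtain ⟨K, hK⟩ := expo A B C σ hσ
  obtain ⟨c, hc⟩ := pow_unbounded_of_one_lt (4 * (‖A‖ + ‖B‖) ) hσ
  refine ⟨K + c + 1, ?_⟩
  intro J S hS
  -- remove the value C
  set S' := S.filter (fun n : ℕ => (n : ℂ) ≠ C) with hS'
  have hcard1 : S.card ≤ S'.card + 1 := by
    have h1 := Finset.card_filter_add_card_filter_not (s := S) (fun n : ℕ => (n : ℂ) ≠ C)
    have h2 : (S.filter (fun n : ℕ => ¬ ((n : ℂ) ≠ C))).card ≤ 1 := by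
      rw [Finset.card_le_one]
      intro a ha b hb
      simp only [ne_eq, not_not, Finset.mem_filter] at ha hb
      have : (a : ℂ) = b := by rw [ha.2, hb.2]
      exact_mod_cast this
    have h3 : S'.card = (S.filter (fun n : ℕ => (n : ℂ) ≠ C)).card := rfl
    omega
  have hdata : ∀ n : ℕ, ∃ d : ℤ × ℤ, n ∈ S' →
      (d.1 ≤ J + K ∧ d.2 ≤ J + K ∧ (n : ℂ) = A * σ ^ d.1 - B * σ ^ d.2 + C) := by
    intro n
    by_cases hn : n ∈ S'
    · have hn' := Finset.mem_filter.mp hn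
      obtain ⟨g1, g2⟩ := hS n hn'.1
      rcases hK J n g1 g2 with h | ⟨k, l, h1, h2, h3⟩
      · exact absurd h hn'.2
      · exact ⟨(k, l), fun _ => ⟨h1, h2, h3⟩⟩
    · exact ⟨(0, 0), fun h => absurd h hn⟩
  choose d hd using hdata
  set T : Finset (ℤ × ℤ) := Finset.Icc (-(c : ℤ)) (J + K) ×ˢ Finset.Icc (-(c : ℤ)) (J + K) with hT
  have hcard2 : S'.card ≤ T.card := by
    apply Finset.card_le_card_of_injOn
      (fun n => (max (d n).1 (-(c : ℤ)), max (d n).2 (-(c : ℤ))))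
    · intro n hn
      obtain ⟨h1, h2, -⟩ := hd n hn
      simp only [hT, Finset.coe_product, Finset.coe_Icc, Set.mem_prod, Set.mem_Icc]
      refine ⟨⟨le_max_right _ _, max_le h1 (by omega)⟩, le_max_right _ _, max_le h2 (by omega)⟩
    · intro n hn n' hn' heq
      obtain ⟨-, -, h3⟩ := hd n hn
      obtain ⟨-, -, h3'⟩ := hd n' hn'
      simp only [Prod.mk.injEq] at heq
      obtain ⟨e1, e2⟩ := heq
      have hstep : ∀ (D : ℂ), ‖D‖ ≤ ‖A‖ + ‖B‖ → ∀ k k' : ℤ, max k (-(c : ℤ)) = max k' (-(c : ℤ)) →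
          ‖D * σ ^ k - D * σ ^ k'‖ < 1 / 2 := by
        intro D hD k k' hk
        by_cases hkk : k = k'
        · rw [hkk, sub_self, norm_zero]; norm_num
        · have hk1 : k ≤ -(c : ℤ) ∧ k' ≤ -(c : ℤ) := by
            rcases le_total k (-(c : ℤ)) with h | h <;> rcases le_total k' (-(c : ℤ)) with h' | h'
            · exact ⟨h, h'⟩
            · rw [max_eq_right h, max_eq_left h'] at hk; exact ⟨h, by omega⟩
            · rw [max_eq_left h, max_eq_right h'] at hk; exact ⟨by omega, h'⟩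
            · rw [max_eq_left h, max_eq_left h'] at hk; exact absurd hk hkk
          have hsm : ∀ m : ℤ, m ≤ -(c : ℤ) → ‖D * σ ^ m‖ < 1 / 4 := by
            intro m hm
            rw [norm_mul, norm_zpow]
            have h5 : ‖σ‖ ^ m ≤ ‖σ‖ ^ (-(c : ℤ)) := zpow_le_zpow_right₀ hσ.le hm
            rw [zpow_neg, zpow_natCast] at h5
            have h8 : 0 < ‖σ‖ ^ c := pow_pos hρ0 c
            calc ‖D‖ * ‖σ‖ ^ m ≤ (‖A‖ + ‖B‖) * (‖σ‖ ^ c)⁻¹ :=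
                  mul_le_mul hD h5 (zpow_nonneg hρ0.le _) (by positivity)
              _ < 1 / 4 := by
                rw [← div_eq_mul_inv, div_lt_iff₀ h8]; linarith
          calc ‖D * σ ^ k - D * σ ^ k'‖ ≤ ‖D * σ ^ k‖ + ‖D * σ ^ k'‖ := norm_sub_le _ _
            _ < 1 / 4 + 1 / 4 := add_lt_add (hsm _ hk1.1) (hsm _ hk1.2)
            _ = 1 / 2 := by norm_num
      have hA1 := hstep A (by linarith [norm_nonneg B]) _ _ e1
      have hB1 := hstep B (by linarith [norm_nonneg A]) _ _ e2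
      have hdiff : (n : ℂ) - n' = (A * σ ^ (d n).1 - A * σ ^ (d n').1) -
          (B * σ ^ (d n).2 - B * σ ^ (d n').2) := by
        rw [h3, h3']; ring
      have hlt : ‖(n : ℂ) - n'‖ < 1 := by
        rw [hdiff]
        calc _ ≤ ‖A * σ ^ (d n).1 - A * σ ^ (d n').1‖ + ‖B * σ ^ (d n).2 - B * σ ^ (d n').2‖ :=
              norm_sub_le _ _
          _ < 1 / 2 + 1 / 2 := add_lt_add hA1 hB1
          _ = 1 := by norm_num
      have hlt2 : |((n : ℤ) - n' : ℤ)| < 1 := by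
        have h9 : ‖((((n : ℤ) - n' : ℤ) : ℂ))‖ < 1 := by
          push_cast
          exact hlt
        rw [Complex.norm_intCast] at h9
        exact_mod_cast h9
      have := Int.abs_lt_one_iff.mp hlt2
      omega
  have hTc : T.card = (J + K + c + 1) * (J + K + c + 1) := by
    rw [hT, Finset.card_product, Int.card_Icc]
    have : ((J : ℤ) + K + 1 - -(c : ℤ)).toNat = J + K + c + 1 := by omega
    rw [this]
  rw [hTc] at hcard2
  have : (J + (K + c + 1)) ^ 2 = (J + K + c + 1) * (J + K + c + 1) := by ring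
  omega

theorem count_gen_gt {ι : Type*} [Finite ι] (A B C : ι → ℂ) (σ : ℂ) (hσ : 1 < ‖σ‖)
    (h : ∀ n : ℕ, ∃ (i : ι) (k l : ℤ), (n : ℂ) = A i * σ ^ k - B i * σ ^ l + C i) : False := by
  classical
  cases nonempty_fintype ι
  have hρ0 : 0 < ‖σ‖ := by linarith
  choose K hK using fun i => single (A i) (B i) (C i) σ hσ
  set K0 := Finset.univ.sup K with hK0
  have hKle : ∀ i, K i ≤ K0 := fun i => Finset.le_sup (Finset.mem_univ i)
  set q := Fintype.card ι with hq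
  -- choose J
  obtain ⟨J, hJ⟩ : ∃ J : ℕ, (q : ℝ) * (((J : ℝ) + K0) ^ 2 + 1) + 1 < ‖σ‖ ^ J := by
    have ht := tendsto_pow_const_div_const_pow_of_one_lt 2 hσ
    have hε : (0 : ℝ) < 1 / ((2 * q + 1) * ‖σ‖ ^ K0) := by positivity
    have hev := (ht.eventually (gt_mem_nhds hε)).and (eventually_ge_atTop (K0 + 1))
    obtain ⟨n, hn1, hn2⟩ := hev.exists
    obtain ⟨J, rfl⟩ := Nat.exists_eq_add_of_le (show K0 ≤ n by omega)
    refine ⟨J, ?_⟩
    have hp : 0 < ‖σ‖ ^ (K0 + J) := pow_pos hρ0 _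
    have hp2 : 0 < ‖σ‖ ^ K0 := pow_pos hρ0 _
    rw [div_lt_div_iff₀ hp (by positivity), pow_add ‖σ‖ K0 J] at hn1
    have h1 : ((K0 + J : ℕ) : ℝ) ^ 2 * (2 * q + 1) < ‖σ‖ ^ J := by
      have h2 : (((K0 + J : ℕ) : ℝ) ^ 2 * (2 * q + 1)) * ‖σ‖ ^ K0 < ‖σ‖ ^ J * ‖σ‖ ^ K0 := by
        linarith
      exact lt_of_mul_lt_mul_right h2 hp2.le
    push_cast at h1
    have h3 : (1 : ℝ) ≤ (K0 + J) ^ 2 := by
      have : (1 : ℝ) ≤ (K0 : ℝ) + J := by
        have : 1 ≤ K0 + J := by omega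
        exact_mod_cast this
      nlinarith
    have hq0 : (0 : ℝ) ≤ q := Nat.cast_nonneg q
    nlinarith
  -- the integers up to σ^J
  set S := Finset.Icc 1 ⌊‖σ‖ ^ J⌋₊ with hS
  have hSle : ∀ n ∈ S, (n : ℝ) ≤ ‖σ‖ ^ J := by
    intro n hn
    rw [hS, Finset.mem_Icc] at hn
    exact (Nat.cast_le.mpr hn.2).trans (Nat.floor_le (by positivity))
  choose f k l hf using h
  have hcard : S.card ≤ ∑ i : ι, (S.filter (fun n => f n = i)).card := by
    rw [← Finset.card_eq_sum_card_fiberwise (f := f) (s := S) (t := Finset.univ)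
      (fun _ _ => Finset.mem_univ _)]
  have hle : ∀ i : ι, (S.filter (fun n => f n = i)).card ≤ (J + K0) ^ 2 + 1 := by
    intro i
    have h1 := hK i J (S.filter (fun n => f n = i)) (by
      intro n hn
      obtain ⟨hn1, hn2⟩ := Finset.mem_filter.mp hn
      refine ⟨hSle n hn1, k n, l n, ?_⟩
      rw [← hn2]; exact hf n)
    have h2 : (J + K i) ^ 2 ≤ (J + K0) ^ 2 := Nat.pow_le_pow_left (by have := hKle i; omega) 2
    omega
  have hsum : S.card ≤ q * ((J + K0) ^ 2 + 1) := by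
    calc S.card ≤ ∑ i : ι, (S.filter (fun n => f n = i)).card := hcard
      _ ≤ ∑ _i : ι, ((J + K0) ^ 2 + 1) := Finset.sum_le_sum (fun i _ => hle i)
      _ = q * ((J + K0) ^ 2 + 1) := by simp [hq]
  have hSc : S.card = ⌊‖σ‖ ^ J⌋₊ := by rw [hS, Nat.card_Icc]; omega
  rw [hSc] at hsum
  have h1 := Nat.lt_floor_add_one (‖σ‖ ^ J)
  have h2 : ((⌊‖σ‖ ^ J⌋₊ : ℕ) : ℝ) ≤ ((q * ((J + K0) ^ 2 + 1) : ℕ) : ℝ) := by exact_mod_cast hsum
  push_cast at h2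
  linarith

/-- **Counting.** The natural numbers are not covered by finitely many families
`A σ^k - B σ^l + C`. -/
theorem count_gen {ι : Type*} [Finite ι] (A B C : ι → ℂ) (σ : ℂ) (hσ0 : σ ≠ 0)
    (h : ∀ n : ℕ, ∃ (i : ι) (k l : ℤ), (n : ℂ) = A i * σ ^ k - B i * σ ^ l + C i) : False := by
  rcases lt_trichotomy ‖σ‖ 1 with hlt | heq | hgt
  · apply count_gen_gt A B C σ⁻¹
    · rw [norm_inv]
      exact (one_lt_inv₀ (norm_pos_iff.mpr hσ0)).mpr hlt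
    · intro n
      obtain ⟨i, k, l, hn⟩ := h n
      refine ⟨i, -k, -l, ?_⟩
      rw [hn]
      simp [inv_zpow']
  · cases nonempty_fintype ι
    obtain ⟨n, hn⟩ := exists_nat_gt (∑ i : ι, (‖A i‖ + ‖B i‖ + ‖C i‖))
    obtain ⟨i, k, l, hi⟩ := h n
    have h3 : (n : ℝ) = ‖(n : ℂ)‖ := by simp
    have h4 : ‖(n : ℂ)‖ ≤ ‖A i‖ + ‖B i‖ + ‖C i‖ := by
      rw [hi]
      calc ‖A i * σ ^ k - B i * σ ^ l + C i‖ ≤ ‖A i * σ ^ k - B i * σ ^ l‖ + ‖C i‖ :=
            norm_add_le _ _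
        _ ≤ ‖A i * σ ^ k‖ + ‖B i * σ ^ l‖ + ‖C i‖ := by
            have := norm_sub_le (A i * σ ^ k) (B i * σ ^ l)
            linarith
        _ = _ := by rw [norm_mul, norm_mul, norm_zpow, norm_zpow, heq]; simp
    have h5 : ‖A i‖ + ‖B i‖ + ‖C i‖ ≤ ∑ i : ι, (‖A i‖ + ‖B i‖ + ‖C i‖) :=
      Finset.single_le_sum (f := fun i => ‖A i‖ + ‖B i‖ + ‖C i‖)
        (fun j _ => by positivity) (Finset.mem_univ i)
    linarith
  · exact count_gen_gt A B C σ hgt h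

end MP302.H50
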