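import Mathlib
import Pool.Agent.Work.MP_302c96_al.H50.Count2

/-! Groups `N = {Y p * (Y r)⁻¹}`, `Y i = α ^ i x`: finite-index subgroups have finite
abelianization. -/

namespace MP302.H50

variable {N : Type*} [Group N]

/-- `Ψ` restricts to a homomorphism `N0 → ℂ`. -/
structure HomOn (N0 : Subgroup N) (Ψ : N → ℂ) : Prop where
  mul : ∀ g ∈ N0, ∀ h ∈ N0, Ψ (g * h) = Ψ g + Ψ h

namespace HomOn

variable {N0 : Subgroup N} {Ψ : N → ℂ} (hΨ : HomOn N0 Ψ)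
include hΨ

theorem one : Ψ 1 = 0 := by
  have := hΨ.mul 1 N0.one_mem 1 N0.one_mem
  rw [mul_one] at this
  linear_combination -this

theorem inv {g : N} (hg : g ∈ N0) : Ψ g⁻¹ = - Ψ g := by
  have := hΨ.mul g hg g⁻¹ (N0.inv_mem hg)
  rw [mul_inv_cancel, hΨ.one] at this
  linear_combination -this

theorem pow {g : N} (hg : g ∈ N0) (n : ℕ) : Ψ (g ^ n) = n * Ψ g := by
  induction n with
  | zero => simp [hΨ.one]
  | succ n ih => rw [pow_succ, hΨ.mul _ (N0.pow_mem hg n) _ hg, ih]; push_cast; ring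

theorem conj {u g : N} (hu : u ∈ N0) (hg : g ∈ N0) : Ψ (u * g * u⁻¹) = Ψ g := by
  rw [hΨ.mul _ (N0.mul_mem hu hg) _ (N0.inv_mem hu), hΨ.mul _ hu _ hg, hΨ.inv hu]; ring

end HomOn

/-- the orbit of `x`. -/
def Y (α : MulAut N) (x : N) (i : ℤ) : N := (α ^ i) x

theorem Y_shift (α : MulAut N) (x : N) (k i : ℤ) : (α ^ k) (Y α x i) = Y α x (k + i) := by
  unfold Y; rw [zpow_add]; rfl

theorem Y_one (α : MulAut N) (x : N) (i : ℤ) : α (Y α x i) = Y α x (1 + i) := by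
  have := Y_shift α x 1 i
  rwa [zpow_one] at this

/-- `D i k ∈ N0`. -/
def D (α : MulAut N) (x : N) (e : ℕ) (i k : ℤ) : N := Y α x (i + e * k) * (Y α x i)⁻¹

theorem D_zero (α : MulAut N) (x : N) (e : ℕ) (i : ℤ) : D α x e i 0 = 1 := by
  simp [D]

theorem D_succ (α : MulAut N) (x : N) (e : ℕ) (i k : ℤ) :
    D α x e i (k + 1) = (α ^ (e : ℤ)) (D α x e i k) * D α x e i 1 := by
  unfold D
  rw [map_mul, map_inv, Y_shift, Y_shift, mul_one]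
  rw [show (e : ℤ) + (i + e * k) = i + e * (k + 1) by ring, show (e : ℤ) + i = i + e by ring]
  group

theorem D_mem {α : MulAut N} {x : N} {e : ℕ} {N0 : Subgroup N}
    (htriv : ∀ g : N, (α ^ (e : ℤ)) g * g⁻¹ ∈ N0) (i : ℤ) (k : ℤ) : D α x e i k ∈ N0 := by
  induction k using Int.induction_on with
  | zero => rw [D_zero]; exact N0.one_mem
  | succ k ih =>
    have h1 := N0.mul_mem (htriv (Y α x (i + e * k))) ih
    convert h1 using 1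
    unfold D
    rw [Y_shift, show (e : ℤ) + (i + e * k) = i + e * (k + 1) by ring]
    group
  | pred k ih =>
    have h1 := N0.mul_mem (N0.inv_mem (htriv (Y α x (i + e * (-k - 1))))) ih
    convert h1 using 1
    unfold D
    rw [Y_shift, show (e : ℤ) + (i + e * (-k - 1)) = i + e * (-k) by ring]
    group

/-- decomposition of the elements of `N0`. -/
theorem decomp {α : MulAut N} {x : N} {e : ℕ} (he : 0 < e) {N0 : Subgroup N}
    (htriv : ∀ g : N, (α ^ (e : ℤ)) g * g⁻¹ ∈ N0)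
    (hform : ∀ g : N, ∃ p r : ℤ, g = Y α x p * (Y α x r)⁻¹) (g : N) (hg : g ∈ N0) :
    ∃ (i j : Fin e) (k l : ℤ), Y α x (i : ℕ) * (Y α x (j : ℕ))⁻¹ ∈ N0 ∧
      g = D α x e (i : ℕ) k * (Y α x (i : ℕ) * (Y α x (j : ℕ))⁻¹) * (D α x e (j : ℕ) l)⁻¹ := by
  obtain ⟨p, r, hpr⟩ := hform g
  have he' : (0 : ℤ) < e := by exact_mod_cast he
  have key : ∀ p : ℤ, ∃ (i : Fin e) (k : ℤ), p = (i : ℕ) + e * k := by
    intro p
    refine ⟨⟨(p % e).toNat, ?_⟩, p / e, ?_⟩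
    · have := Int.emod_lt_of_pos p he'
      have := Int.emod_nonneg p he'.ne'
      omega
    · have := Int.emod_nonneg p he'.ne'
      simp only [Int.toNat_of_nonneg this]
      exact (Int.emod_add_mul_ediv p e).symm
  obtain ⟨i, k, hp⟩ := key p
  obtain ⟨j, l, hr⟩ := key r
  have hD : g = D α x e (i : ℕ) k * (Y α x (i : ℕ) * (Y α x (j : ℕ))⁻¹) *
      (D α x e (j : ℕ) l)⁻¹ := by
    rw [hpr]
    unfold D
    rw [← hp, ← hr]
    group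
  refine ⟨i, j, k, l, ?_, hD⟩
  have h1 := N0.mul_mem (N0.mul_mem (N0.inv_mem (D_mem htriv (x := x) (i : ℕ) k)) hg)
    (D_mem htriv (x := x) (j : ℕ) l)
  rw [hD] at h1
  convert h1 using 1
  group

theorem geo {τ : ℂ} (hτ : τ ≠ 0) (F : ℤ → ℂ) (h : ∀ k, F (k + 1) = τ * F k) :
    ∀ k, F k = τ ^ k * F 0 := by
  intro k
  induction k using Int.induction_on with
  | zero => simp
  | succ k ih => rw [h, ih, zpow_add₀ hτ, zpow_one]; ring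
  | pred k ih =>
    have h1 := h (-k - 1)
    rw [sub_add_cancel, ih] at h1
    rw [zpow_sub₀ hτ, zpow_one]
    field_simp
    rw [h1]; ring

theorem lin {c : ℂ} (F : ℤ → ℂ) (h : ∀ k, F (k + 1) = F k + c) : ∀ k : ℤ, F k = k * c + F 0 := by
  intro k
  induction k using Int.induction_on with
  | zero => simp
  | succ k ih => rw [h, ih]; push_cast; ring
  | pred k ih =>
    have h1 := h (-k - 1)
    rw [sub_add_cancel, ih] at h1
    push_cast at h1 ⊢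
    linear_combination -h1

/-- the case of an eigenvalue `τ ≠ 1`. -/
theorem caseA {α : MulAut N} {x : N} {e : ℕ} (he : 0 < e) {N0 : Subgroup N}
    (htriv : ∀ g : N, (α ^ (e : ℤ)) g * g⁻¹ ∈ N0)
    (hform : ∀ g : N, ∃ p r : ℤ, g = Y α x p * (Y α x r)⁻¹) {Ψ : N → ℂ} (hΨ : HomOn N0 Ψ)
    {τ : ℂ} (hτ0 : τ ≠ 0) (hτ1 : τ ≠ 1) (hτ : ∀ g ∈ N0, Ψ ((α ^ (e : ℤ)) g) = τ * Ψ g)
    (hαN : ∀ g ∈ N0, (α ^ (e : ℤ)) g ∈ N0)
    {g0 : N} (hg0 : g0 ∈ N0) (hne : Ψ g0 ≠ 0) : False := by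
  have hτ1' : τ - 1 ≠ 0 := sub_ne_zero.mpr hτ1
  set A : ℤ → ℂ := fun i => Ψ (D α x e i 1) / (τ - 1) with hA
  have hF : ∀ i k : ℤ, Ψ (D α x e i k) = A i * τ ^ k - A i := by
    intro i k
    have h1 := geo hτ0 (fun k => Ψ (D α x e i k) + A i) (by
      intro k
      rw [D_succ, hΨ.mul _ (hαN _ (D_mem htriv i k)) _ (D_mem htriv i 1),
        hτ _ (D_mem htriv i k), hA]
      field_simp
      ring) k
    simp only [D_zero, hΨ.one, zero_add] at h1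
    linear_combination h1
  have hι : Finite (Fin e × Fin e) := inferInstance
  apply count_gen (ι := Fin e × Fin e) (fun ij => A (ij.1 : ℕ) / Ψ g0)
    (fun ij => A (ij.2 : ℕ) / Ψ g0)
    (fun ij => (Ψ (Y α x (ij.1 : ℕ) * (Y α x (ij.2 : ℕ))⁻¹) - A (ij.1 : ℕ) + A (ij.2 : ℕ)) / Ψ g0)
    τ hτ0
  intro n
  obtain ⟨i, j, k, l, hmem, hD⟩ := decomp he htriv hform (g0 ^ n) (N0.pow_mem hg0 n)
  refine ⟨(i, j), k, l, ?_⟩
  have h1 := hΨ.pow hg0 n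
  rw [hD, hΨ.mul _ (N0.mul_mem (D_mem htriv _ k) hmem) _ (N0.inv_mem (D_mem htriv _ l)),
    hΨ.mul _ (D_mem htriv _ k) _ hmem, hΨ.inv (D_mem htriv _ l), hF, hF] at h1
  simp only
  field_simp
  linear_combination -h1

/-- the case `τ = 1`: the space of invariant homomorphisms is one-dimensional. -/
theorem onedim {α : MulAut N} {x : N} {e : ℕ} (he : 0 < e) {N0 : Subgroup N}
    (htriv : ∀ g : N, (α ^ (e : ℤ)) g * g⁻¹ ∈ N0)
    (hform : ∀ g : N, ∃ p r : ℤ, g = Y α x p * (Y α x r)⁻¹)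
    (hαN : ∀ g ∈ N0, (α ^ (e : ℤ)) g ∈ N0) {Ψ₁ Ψ₂ : N → ℂ}
    (h₁ : HomOn N0 Ψ₁) (h₂ : HomOn N0 Ψ₂)
    (i₁ : ∀ g ∈ N0, Ψ₁ ((α ^ (e : ℤ)) g) = Ψ₁ g) (i₂ : ∀ g ∈ N0, Ψ₂ ((α ^ (e : ℤ)) g) = Ψ₂ g)
    {g0 : N} (hg0 : g0 ∈ N0) (hne : Ψ₁ g0 ≠ 0) : ∃ c : ℂ, ∀ g ∈ N0, Ψ₂ g = c * Ψ₁ g := by
  classical
  -- linear growth
  have hF : ∀ (Ψ : N → ℂ) (_ : HomOn N0 Ψ) (_ : ∀ g ∈ N0, Ψ ((α ^ (e : ℤ)) g) = Ψ g) (i k : ℤ),
      Ψ (D α x e i k) = k * Ψ (D α x e i 1) := by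
    intro Ψ hΨ hi i k
    have h1 := lin (c := Ψ (D α x e i 1)) (fun k => Ψ (D α x e i k)) (by
      intro k
      rw [D_succ, hΨ.mul _ (hαN _ (D_mem htriv i k)) _ (D_mem htriv i 1),
        hi _ (D_mem htriv i k)]) k
    simp only [D_zero, hΨ.one, add_zero] at h1
    exact h1
  have hij : ∀ (Ψ : N → ℂ) (_ : HomOn N0 Ψ) (_ : ∀ g ∈ N0, Ψ ((α ^ (e : ℤ)) g) = Ψ g) (i j : ℤ),
      Y α x i * (Y α x j)⁻¹ ∈ N0 → Ψ (D α x e i 1) = Ψ (D α x e j 1) := by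
    intro Ψ hΨ hi i j hm
    have h1 : D α x e i 1 = (α ^ (e : ℤ)) (Y α x i * (Y α x j)⁻¹) * D α x e j 1 *
        (Y α x i * (Y α x j)⁻¹)⁻¹ := by
      unfold D
      rw [map_mul, map_inv, Y_shift, Y_shift, mul_one,
        show (e : ℤ) + i = i + e by ring, show (e : ℤ) + j = j + e by ring]
      group
    rw [h1, hΨ.mul _ (N0.mul_mem (hαN _ hm) (D_mem htriv j 1)) _ (N0.inv_mem hm),
      hΨ.mul _ (hαN _ hm) _ (D_mem htriv j 1), hi _ hm, hΨ.inv hm]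
    ring
  let H : Fin e × Fin e → Subgroup N0 := fun ij =>
    { carrier := {h | ∃ t : ℤ, Ψ₁ h = t * Ψ₁ (D α x e (ij.1 : ℕ) 1) ∧
        Ψ₂ h = t * Ψ₂ (D α x e (ij.1 : ℕ) 1)}
      mul_mem' := by
        rintro u v ⟨t, h1, h2⟩ ⟨s, h3, h4⟩
        refine ⟨t + s, ?_, ?_⟩
        · rw [Subgroup.coe_mul, h₁.mul _ u.2 _ v.2, h1, h3]; push_cast; ring
        · rw [Subgroup.coe_mul, h₂.mul _ u.2 _ v.2, h2, h4]; push_cast; ring
      one_mem' := by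
        refine ⟨0, ?_, ?_⟩
        · rw [Subgroup.coe_one, h₁.one]; simp
        · rw [Subgroup.coe_one, h₂.one]; simp
      inv_mem' := by
        rintro u ⟨t, h1, h2⟩
        refine ⟨-t, ?_, ?_⟩
        · rw [Subgroup.coe_inv, h₁.inv u.2, h1]; push_cast; ring
        · rw [Subgroup.coe_inv, h₂.inv u.2, h2]; push_cast; ring }
  let c : Fin e × Fin e → N0 := fun ij =>
    if h : Y α x (ij.1 : ℕ) * (Y α x (ij.2 : ℕ))⁻¹ ∈ N0 then ⟨_, h⟩ else 1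
  obtain ⟨ij, -, hfin⟩ := Subgroup.exists_finiteIndex_of_leftCoset_cover (H := H) (g := c)
    (s := Finset.univ) (by
      rw [Set.eq_univ_iff_forall]
      intro g
      obtain ⟨i, j, k, l, hmem, hD⟩ := decomp he htriv hform g g.2
      simp only [Set.mem_iUnion]
      refine ⟨(i, j), Finset.mem_univ _, ?_⟩
      rw [Set.mem_smul_set_iff_inv_smul_mem]
      have hc : ((c (i, j) : N0) : N) = Y α x (i : ℕ) * (Y α x (j : ℕ))⁻¹ := by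
        simp only [c, hmem, dif_pos]
      have hval : ∀ (Ψ : N → ℂ) (_ : HomOn N0 Ψ) (_ : ∀ g ∈ N0, Ψ ((α ^ (e : ℤ)) g) = Ψ g),
          Ψ (((c (i, j))⁻¹ * g : N0) : N) = ((k - l : ℤ) : ℂ) * Ψ (D α x e (i : ℕ) 1) := by
        intro Ψ hΨ hi
        rw [Subgroup.coe_mul, Subgroup.coe_inv, hΨ.mul _ (N0.inv_mem (c (i, j)).2) _ g.2,
          hΨ.inv (c (i, j)).2, hc]
        conv_lhs => rw [hD]
        rw [hΨ.mul _ (N0.mul_mem (D_mem htriv _ k) hmem) _ (N0.inv_mem (D_mem htriv _ l)),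
          hΨ.mul _ (D_mem htriv _ k) _ hmem, hΨ.inv (D_mem htriv _ l), hF Ψ hΨ hi _ k,
          hF Ψ hΨ hi _ l, hij Ψ hΨ hi _ _ hmem]
        push_cast
        ring
      exact ⟨k - l, hval Ψ₁ h₁ i₁, hval Ψ₂ h₂ i₂⟩)
  have hidx : (H ij).index ≠ 0 := hfin.index_ne_zero
  have key : ∀ g ∈ N0, ∃ (m : ℕ) (t : ℤ), 0 < m ∧ m * Ψ₁ g = t * Ψ₁ (D α x e (ij.1 : ℕ) 1) ∧
      m * Ψ₂ g = t * Ψ₂ (D α x e (ij.1 : ℕ) 1) := by
    intro g hg
    obtain ⟨m, hm, -, hmem⟩ := Subgroup.exists_pow_mem_of_index_ne_zero hidx ⟨g, hg⟩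
    obtain ⟨t, h1, h2⟩ := hmem
    refine ⟨m, t, hm, ?_, ?_⟩
    · rw [← h1, Subgroup.coe_pow, h₁.pow hg]
    · rw [← h2, Subgroup.coe_pow, h₂.pow hg]
  have hA : Ψ₁ (D α x e (ij.1 : ℕ) 1) ≠ 0 := by
    intro h0
    obtain ⟨m, t, hm, h1, -⟩ := key g0 hg0
    rw [h0, mul_zero] at h1
    rcases mul_eq_zero.mp h1 with h | h
    · have : m = 0 := by exact_mod_cast h
      omega
    · exact hne h
  refine ⟨Ψ₂ (D α x e (ij.1 : ℕ) 1) / Ψ₁ (D α x e (ij.1 : ℕ) 1), ?_⟩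
  intro g hg
  obtain ⟨m, t, hm, h1, h2⟩ := key g hg
  have hm0 : (m : ℂ) ≠ 0 := by exact_mod_cast hm.ne'
  apply mul_left_cancel₀ hm0
  rw [h2]
  field_simp
  linear_combination -(Ψ₂ (D α x e (ij.1 : ℕ) 1)) * h1

end MP302.H50
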