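import Mathlib

/-! A subgroup of `ℂ` is not of the form `{κ (τ^p - τ^r)}` : counting. -/

namespace MP302.H50

open Filter Topology

/-- normal form of a value `κ (τ ^ p - τ ^ r)`, `p ≠ r`. -/
theorem nf (τ κ : ℂ) (n : ℕ) (hn : 1 ≤ n) (p r : ℤ) (h : (n : ℂ) = κ * (τ ^ p - τ ^ r)) :
    ∃ (s : Bool) (M m : ℤ), m < M ∧ (n : ℂ) = (if s then κ else -κ) * (τ ^ M - τ ^ m) := by
  have hn0 : (n : ℂ) ≠ 0 := by
    have : n ≠ 0 := by omega
    exact_mod_cast this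
  rcases lt_trichotomy p r with hpr | hpr | hpr
  · refine ⟨false, r, p, hpr, ?_⟩
    rw [h]; simp; ring
  · exfalso; apply hn0; rw [h, hpr]; simp
  · refine ⟨true, p, r, hpr, ?_⟩
    rw [h]; simp

theorem count_gt (τ κ : ℂ) (hτ : 1 < ‖τ‖)
    (h : ∀ n : ℕ, 1 ≤ n → ∃ p r : ℤ, (n : ℂ) = κ * (τ ^ p - τ ^ r)) : False := by
  classical
  have hτ0 : τ ≠ 0 := by
    intro h0; rw [h0, norm_zero] at hτ; linarith
  set ρ := ‖τ‖ with hρ
  set k := ‖κ‖ with hkdef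
  have hρ0 : 0 < ρ := by linarith
  have hκ0 : κ ≠ 0 := by
    rintro rfl
    obtain ⟨p, r, hpr⟩ := h 1 le_rfl
    simp at hpr
  have hk : 0 < k := norm_pos_iff.mpr hκ0
  obtain ⟨c, hc⟩ := pow_unbounded_of_one_lt (2 * k) hτ
  -- the data
  have hdata : ∀ n : ℕ, ∃ (d : Bool × ℤ × ℤ), 1 ≤ n →
      (d.2.2 < d.2.1 ∧ (n : ℂ) = (if d.1 then κ else -κ) * (τ ^ d.2.1 - τ ^ d.2.2)) := by
    intro n
    by_cases hn : 1 ≤ n
    · obtain ⟨p, r, hpr⟩ := h n hn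
      obtain ⟨s, M, m, h1, h2⟩ := nf τ κ n hn p r hpr
      exact ⟨(s, M, m), fun _ => ⟨h1, h2⟩⟩
    · exact ⟨(true, 0, 0), fun h => absurd h hn⟩
  choose d hd using hdata
  have hnormσ : ∀ s : Bool, ‖(if s then κ else -κ)‖ = k := by
    intro s; cases s <;> simp [hkdef]
  have hzn : ∀ i : ℤ, ‖τ ^ i‖ = ρ ^ i := fun i => norm_zpow τ i
  -- lower bound
  have hlow : ∀ n : ℕ, 1 ≤ n → k * ρ ^ ((d n).2.1 - 1) * (ρ - 1) ≤ (n : ℝ) := by
    intro n hn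
    obtain ⟨h1, h2⟩ := hd n hn
    have h3 : (n : ℝ) = ‖(n : ℂ)‖ := by simp
    rw [h3, h2, norm_mul, hnormσ]
    have h4 : ‖τ ^ (d n).2.1‖ - ‖τ ^ (d n).2.2‖ ≤ ‖τ ^ (d n).2.1 - τ ^ (d n).2.2‖ :=
      norm_sub_norm_le _ _
    rw [hzn, hzn] at h4
    have h5 : ρ ^ (d n).2.2 ≤ ρ ^ ((d n).2.1 - 1) :=
      zpow_le_zpow_right₀ hτ.le (by omega)
    have h6 : ρ ^ (d n).2.1 = ρ ^ ((d n).2.1 - 1) * ρ := by
      rw [← zpow_add_one₀ hρ0.ne']; congr 1; ring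
    have h7 : ρ ^ ((d n).2.1 - 1) * (ρ - 1) ≤ ‖τ ^ (d n).2.1 - τ ^ (d n).2.2‖ := by
      nlinarith
    calc k * ρ ^ ((d n).2.1 - 1) * (ρ - 1) = k * (ρ ^ ((d n).2.1 - 1) * (ρ - 1)) := by ring
      _ ≤ _ := mul_le_mul_of_nonneg_left h7 hk.le
  -- M > -c
  have hMc : ∀ n : ℕ, 1 ≤ n → -(c : ℤ) < (d n).2.1 := by
    intro n hn
    obtain ⟨h1, h2⟩ := hd n hn
    by_contra hcon
    push Not at hcon
    have h3 : (1 : ℝ) ≤ ‖(n : ℂ)‖ := by
      simp; omega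
    rw [h2, norm_mul, hnormσ] at h3
    have h4 : ‖τ ^ (d n).2.1 - τ ^ (d n).2.2‖ ≤ ‖τ ^ (d n).2.1‖ + ‖τ ^ (d n).2.2‖ :=
      norm_sub_le _ _
    rw [hzn, hzn] at h4
    have h5 : ρ ^ (d n).2.1 ≤ ρ ^ (-(c : ℤ)) := zpow_le_zpow_right₀ hτ.le hcon
    have h6 : ρ ^ (d n).2.2 ≤ ρ ^ (-(c : ℤ)) := zpow_le_zpow_right₀ hτ.le (by omega)
    have h7 : ρ ^ (-(c : ℤ)) = (ρ ^ c)⁻¹ := by
      rw [zpow_neg, zpow_natCast]
    rw [h7] at h5 h6
    have h8 : 0 < ρ ^ c := pow_pos hρ0 c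
    have h9 : k * ‖τ ^ (d n).2.1 - τ ^ (d n).2.2‖ ≤ k * (2 * (ρ ^ c)⁻¹) :=
      mul_le_mul_of_nonneg_left (by linarith) hk.le
    have h10 : k * (2 * (ρ ^ c)⁻¹) < 1 := by
      rw [show k * (2 * (ρ ^ c)⁻¹) = (2 * k) * (ρ ^ c)⁻¹ by ring]
      rw [← div_eq_mul_inv, div_lt_one h8]
      exact hc
    linarith
  -- choose J
  obtain ⟨J, hJ⟩ : ∃ J : ℕ, 2 * ((J : ℝ) + c + 1) ^ 2 + 1 < k * ρ ^ J * (ρ - 1) := by
    have ht := tendsto_pow_const_div_const_pow_of_one_lt 2 hτ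
    have hε : (0 : ℝ) < k * (ρ - 1) / (3 * ρ ^ (c + 1)) := by
      have : 0 < ρ - 1 := by linarith
      positivity
    have hev := (ht.eventually (gt_mem_nhds hε)).and (eventually_ge_atTop (c + 1))
    obtain ⟨n, hn1, hn2⟩ := hev.exists
    obtain ⟨J, rfl⟩ := Nat.exists_eq_add_of_le hn2
    refine ⟨J, ?_⟩
    have hp : 0 < ρ ^ (c + 1 + J) := pow_pos hρ0 _
    have hp2 : 0 < ρ ^ (c + 1) := pow_pos hρ0 _
    rw [div_lt_div_iff₀ hp (by positivity)] at hn1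
    rw [pow_add ρ (c + 1) J] at hn1
    have h1 : ((c + 1 + J : ℕ) : ℝ) ^ 2 * 3 < k * (ρ - 1) * ρ ^ J := by
      have : ((c + 1 + J : ℕ) : ℝ) ^ 2 * (3 * ρ ^ (c + 1)) <
          (k * (ρ - 1) * ρ ^ J) * ρ ^ (c + 1) := by linarith
      have h2 : (((c + 1 + J : ℕ) : ℝ) ^ 2 * 3) * ρ ^ (c + 1) <
          (k * (ρ - 1) * ρ ^ J) * ρ ^ (c + 1) := by linarith
      exact lt_of_mul_lt_mul_right h2 hp2.le
    push_cast at h1
    have h3 : (1 : ℝ) ≤ (c + 1 + J) ^ 2 := by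
      have : (1 : ℝ) ≤ (c : ℝ) + 1 + J := by
        have := Nat.cast_nonneg (α := ℝ) c
        have := Nat.cast_nonneg (α := ℝ) J
        linarith
      nlinarith
    nlinarith
  -- the finset of n with 1 ≤ n < Y
  set Y := k * ρ ^ J * (ρ - 1) with hY
  set S := Finset.Icc 1 (⌈Y⌉₊ - 1) with hS
  have hSY : ∀ n ∈ S, 1 ≤ n ∧ (n : ℝ) < Y := by
    intro n hn
    rw [hS, Finset.mem_Icc] at hn
    refine ⟨hn.1, ?_⟩
    have : n < ⌈Y⌉₊ := by omega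
    exact Nat.lt_ceil.mp this
  have hMJ : ∀ n ∈ S, (d n).2.1 ≤ J := by
    intro n hn
    obtain ⟨h1, h2⟩ := hSY n hn
    by_contra hcon
    push Not at hcon
    have h3 := hlow n h1
    have h4 : ρ ^ (J : ℤ) ≤ ρ ^ ((d n).2.1 - 1) := zpow_le_zpow_right₀ hτ.le (by omega)
    rw [zpow_natCast] at h4
    have h5 : 0 < ρ - 1 := by linarith
    have h6 : k * ρ ^ J * (ρ - 1) ≤ k * ρ ^ ((d n).2.1 - 1) * (ρ - 1) := by
      apply mul_le_mul_of_nonneg_right _ h5.le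
      exact mul_le_mul_of_nonneg_left h4 hk.le
    linarith
  set T : Finset (Bool × ℤ × ℤ) :=
    Finset.univ ×ˢ (Finset.Icc (-(c : ℤ)) J ×ˢ Finset.Icc (-(c : ℤ)) J) with hT
  have hcard : S.card ≤ T.card := by
    apply Finset.card_le_card_of_injOn (fun n => ((d n).1, (d n).2.1, max (d n).2.2 (-(c : ℤ))))
    · intro n hn
      have hn' : n ∈ S := hn
      obtain ⟨h1, h2⟩ := hSY n hn'
      have h3 := hMJ n hn'
      have h4 := hMc n h1
      have h5 := (hd n h1).1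
      simp only [hT, Finset.coe_product, Finset.mem_coe, Finset.mem_product, Finset.mem_univ,
        Finset.mem_Icc, Set.mem_prod, true_and, Finset.coe_univ, Set.mem_univ]
      refine ⟨⟨by omega, h3⟩, le_max_right _ _, max_le (by omega) (by omega)⟩
    · intro n hn n' hn' heq
      have hn1 : n ∈ S := hn
      have hn1' : n' ∈ S := hn'
      obtain ⟨h1, -⟩ := hSY n hn1
      obtain ⟨h1', -⟩ := hSY n' hn1'
      simp only [Prod.mk.injEq] at heq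
      obtain ⟨e1, e2, e3⟩ := heq
      obtain ⟨g1, g2⟩ := hd n h1
      obtain ⟨g1', g2'⟩ := hd n' h1'
      rw [← e1, ← e2] at g2'
      -- two cases
      by_cases hm : -(c : ℤ) < (d n).2.2
      · have hmm : (d n').2.2 = (d n).2.2 := by
          rw [max_eq_left hm.le] at e3
          by_cases hm' : -(c : ℤ) ≤ (d n').2.2
          · rw [max_eq_left hm'] at e3; exact e3.symm
          · push Not at hm'
            rw [max_eq_right hm'.le] at e3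
            omega
        rw [hmm, ← g2] at g2'
        exact_mod_cast g2'.symm
      · push Not at hm
        have hm' : (d n').2.2 ≤ -(c : ℤ) := by
          rw [max_eq_right hm] at e3
          by_contra hcon
          push Not at hcon
          rw [max_eq_left hcon.le] at e3
          omega
        set σ := (if (d n).1 then κ else -κ) with hσ
        have hsm : ∀ m : ℤ, m ≤ -(c : ℤ) → ‖σ * τ ^ m‖ < 1 / 2 := by
          intro m hm
          rw [norm_mul, hσ, hnormσ, hzn]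
          have h5 : ρ ^ m ≤ ρ ^ (-(c : ℤ)) := zpow_le_zpow_right₀ hτ.le hm
          rw [zpow_neg, zpow_natCast] at h5
          have h8 : 0 < ρ ^ c := pow_pos hρ0 c
          calc k * ρ ^ m ≤ k * (ρ ^ c)⁻¹ := mul_le_mul_of_nonneg_left h5 hk.le
            _ < 1 / 2 := by
              rw [← div_eq_mul_inv, div_lt_iff₀ h8]; linarith
        have hdiff : (n : ℂ) - n' = σ * τ ^ (d n').2.2 - σ * τ ^ (d n).2.2 := by
          rw [g2, g2']; ring
        have hlt : ‖(n : ℂ) - n'‖ < 1 := by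
          rw [hdiff]
          calc ‖σ * τ ^ (d n').2.2 - σ * τ ^ (d n).2.2‖
              ≤ ‖σ * τ ^ (d n').2.2‖ + ‖σ * τ ^ (d n).2.2‖ := norm_sub_le _ _
            _ < 1 / 2 + 1 / 2 := add_lt_add (hsm _ hm') (hsm _ hm)
            _ = 1 := by norm_num
        have hlt2 : |((n : ℤ) - n' : ℤ)| < 1 := by
          have h9 : ‖((((n : ℤ) - n' : ℤ) : ℂ))‖ < 1 := by
            push_cast
            exact hlt
          rw [Complex.norm_intCast] at h9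
          exact_mod_cast h9
        have := Int.abs_lt_one_iff.mp hlt2
        omega
  have hTc : T.card = 2 * ((J + c + 1) * (J + c + 1)) := by
    rw [hT, Finset.card_product, Finset.card_product]
    simp
    have : ((J : ℤ) + 1 + (c : ℤ)).toNat = J + c + 1 := by omega
    rw [this]
  have hSc : S.card = ⌈Y⌉₊ - 1 := by
    rw [hS, Nat.card_Icc]; omega
  rw [hTc, hSc] at hcard
  have h1 : ⌈Y⌉₊ ≤ 2 * ((J + c + 1) * (J + c + 1)) + 1 := by omega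
  have h2 : Y ≤ (⌈Y⌉₊ : ℝ) := Nat.le_ceil Y
  have h3 : ((⌈Y⌉₊ : ℕ) : ℝ) ≤ ((2 * ((J + c + 1) * (J + c + 1)) + 1 : ℕ) : ℝ) := by
    exact_mod_cast h1
  push_cast at h3
  nlinarith

/-- no `τ, κ` such that every positive integer is `κ (τ ^ p - τ ^ r)`. -/
theorem count (τ κ : ℂ) (hτ0 : τ ≠ 0)
    (h : ∀ n : ℕ, 1 ≤ n → ∃ p r : ℤ, (n : ℂ) = κ * (τ ^ p - τ ^ r)) : False := by
  rcases lt_trichotomy ‖τ‖ 1 with hlt | heq | hgt
  · apply count_gt τ⁻¹ κ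
    · rw [norm_inv]
      exact (one_lt_inv₀ (norm_pos_iff.mpr hτ0)).mpr hlt
    · intro n hn
      obtain ⟨p, r, hpr⟩ := h n hn
      refine ⟨-p, -r, ?_⟩
      rw [hpr]
      simp [inv_zpow']
  · obtain ⟨n, hn⟩ := exists_nat_gt (2 * ‖κ‖)
    have hn1 : 1 ≤ n := by
      rcases Nat.eq_zero_or_pos n with h0 | h0
      · rw [h0] at hn
        have := norm_nonneg κ
        norm_num at hn
        linarith
      · exact h0
    obtain ⟨p, r, hpr⟩ := h n hn1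
    have h3 : (n : ℝ) = ‖(n : ℂ)‖ := by simp
    rw [hpr, norm_mul] at h3
    have h4 : ‖τ ^ p - τ ^ r‖ ≤ 2 := by
      calc ‖τ ^ p - τ ^ r‖ ≤ ‖τ ^ p‖ + ‖τ ^ r‖ := norm_sub_le _ _
        _ = 2 := by rw [norm_zpow, norm_zpow, heq]; norm_num
    have h5 : ‖κ‖ * ‖τ ^ p - τ ^ r‖ ≤ ‖κ‖ * 2 :=
      mul_le_mul_of_nonneg_left h4 (norm_nonneg _)
    linarith
  · exact count_gt τ κ hgt h

end MP302.H50
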