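import Mathlib
import Pool.Agent.Work.MP_302c96_al.H50.Count

/-! Locally indicable groups `G = ABA`, `A`, `B` conjugate cyclic. -/

namespace MP302.H50

variable {G : Type*} [Group G]

/-- the conjugates `a ^ i * x * a ^ (-i)`. -/
def X (a x : G) (i : ℤ) : G := a ^ i * x * (a ^ i)⁻¹

theorem X_zero (a x : G) : X a x 0 = x := by simp [X]

theorem conj_X (a x : G) (i : ℤ) : a * X a x i * a⁻¹ = X a x (i + 1) := by
  unfold X
  rw [show i + 1 = 1 + i by ring, zpow_add]
  simp only [zpow_one, mul_inv_rev]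
  group

theorem X_inv (a x : G) (i : ℤ) : X a⁻¹ x i = X a x (-i) := by
  unfold X
  simp

/-- the elements of the kernel. -/
theorem ker_form (a x : G) (i j : ℤ) :
    a ^ i * (x * a * x⁻¹) ^ j * a ^ (-i - j) = X a x i * (X a x (i + j))⁻¹ := by
  have h1 : (x * a * x⁻¹) ^ j = x * a ^ j * x⁻¹ := by
    rw [conj_zpow]
  rw [h1]
  unfold X
  have h2 : a ^ (i + j) = a ^ i * a ^ j := zpow_add a i j
  have h3 : a ^ (-i - j) = (a ^ j)⁻¹ * (a ^ i)⁻¹ := by
    rw [show -i - j = -j + -i by ring, zpow_add, zpow_neg, zpow_neg]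
  rw [h2, h3]
  group

/-- the subgroup generated by `X i`, `L ≤ i < M`. -/
def Win (a x : G) (L M : ℤ) : Subgroup G := Subgroup.closure (X a x '' Set.Ico L M)

theorem win_fg (a x : G) (L M : ℤ) : (Win a x L M).FG := by
  rw [Subgroup.fg_iff]
  exact ⟨_, rfl, (Set.finite_Ico L M).image _⟩

theorem win_conj {a x : G} {L M : ℤ} (hLM : L < M) (hM : X a x M ∈ Win a x L M) :
    ∀ w ∈ Win a x L M, a * w * a⁻¹ ∈ Win a x L M := by
  intro w hw
  unfold Win at hw
  induction hw using Subgroup.closure_induction with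
  | mem y hy =>
    obtain ⟨i, hi, rfl⟩ := hy
    rw [conj_X]
    rcases lt_or_eq_of_le (show i + 1 ≤ M by have := hi.2; omega) with h | h
    · exact Subgroup.subset_closure ⟨i + 1, ⟨by have := hi.1; omega, h⟩, rfl⟩
    · rw [h]; exact hM
  | one => simp [Subgroup.one_mem]
  | mul y z _ _ hy hz =>
    have : a * (y * z) * a⁻¹ = (a * y * a⁻¹) * (a * z * a⁻¹) := by group
    rw [this]; exact Subgroup.mul_mem _ hy hz
  | inv y _ hy =>
    have : a * y⁻¹ * a⁻¹ = (a * y * a⁻¹)⁻¹ := by group
    rw [this]; exact Subgroup.inv_mem _ hy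

theorem X_mem_up {a x : G} {W : Subgroup G} (hc : ∀ w ∈ W, a * w * a⁻¹ ∈ W) {i : ℤ}
    (hi : X a x i ∈ W) : ∀ j : ℤ, i ≤ j → X a x j ∈ W := by
  intro j hj
  obtain ⟨n, rfl⟩ := Int.le.dest hj
  induction n with
  | zero => simpa using hi
  | succ n ih =>
    have := hc _ (ih (by omega))
    rw [conj_X] at this
    convert this using 2
    push_cast; ring

theorem conj_pow_mem {a : G} {W : Subgroup G} (hc : ∀ w ∈ W, a * w * a⁻¹ ∈ W) (s : ℕ) :
    ∀ w ∈ W, a ^ (s : ℤ) * w * (a ^ (s : ℤ))⁻¹ ∈ W := by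
  intro w hw
  induction s with
  | zero => simpa using hw
  | succ s ih =>
    have := hc _ ih
    convert this using 1
    push_cast
    rw [show (s : ℤ) + 1 = 1 + s by ring, zpow_add]
    simp only [zpow_one]
    group

theorem conj_pow_X (a x : G) (s i : ℤ) : a ^ s * X a x i * (a ^ s)⁻¹ = X a x (i + s) := by
  unfold X
  rw [show i + s = s + i by ring, zpow_add]
  group

/-- the level lemma. -/
theorem level {a x : G} {W : Subgroup G} (hc : ∀ w ∈ W, a * w * a⁻¹ ∈ W) {L : ℤ}
    (hL : X a x L ∈ W) {p r : ℤ} (hpr : p ≠ r) (hg : X a x p * (X a x r)⁻¹ ∈ W) :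
    X a x p ∈ W ∧ X a x r ∈ W := by
  -- first the case p < r
  have key : ∀ p r : ℤ, p < r → X a x p * (X a x r)⁻¹ ∈ W → X a x r ∈ W := by
    intro p r hpr hg
    by_contra hr
    -- find the minimal s
    have hex : ∃ s : ℕ, X a x (r + s) ∈ W := by
      refine ⟨(L - r).toNat, ?_⟩
      apply X_mem_up hc hL
      omega
    classical
    have hs := Nat.find_spec hex
    have hmin := fun m => Nat.find_min hex (m := m)
    set s := Nat.find hex with hsdef
    have hs0 : s ≠ 0 := by
      intro h0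
      rw [h0] at hs
      apply hr
      simpa using hs
    have h1 := conj_pow_mem hc s _ hg
    have h2 : a ^ (s : ℤ) * (X a x p * (X a x r)⁻¹) * (a ^ (s : ℤ))⁻¹ =
        X a x (p + s) * (X a x (r + s))⁻¹ := by
      rw [← conj_pow_X, ← conj_pow_X]; group
    rw [h2] at h1
    have h3 : X a x (p + s) ∈ W := by
      have := Subgroup.mul_mem _ h1 hs
      simpa using this
    have h4 : X a x (r + (s - 1 : ℕ)) ∈ W := by
      apply X_mem_up hc h3
      omega
    exact hmin (s - 1) (by omega) h4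
  rcases lt_or_gt_of_ne hpr with h | h
  · have hr := key p r h hg
    refine ⟨?_, hr⟩
    have := Subgroup.mul_mem _ hg hr
    simpa using this
  · have hg' : X a x r * (X a x p)⁻¹ ∈ W := by
      have := Subgroup.inv_mem _ hg
      simpa using this
    have hp := key r p h hg'
    refine ⟨hp, ?_⟩
    have := Subgroup.mul_mem _ hg' hp
    simpa using this

end MP302.H50
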