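import Mathlib
import Pool.Agent.Work.MP_302c96_al.H50.Abs

/-! Invariance, transfer and the conclusion for invariant finite-index subgroups. -/

namespace MP302.H50

variable {N : Type*} [Group N]

/-- **transfer**: an invariant homomorphism of a finite-index normal subgroup. -/
theorem transfer_hom (N0 : Subgroup N) [hn : N0.Normal] [hf : N0.FiniteIndex] {Ψ : N → ℂ}
    (hΨ : HomOn N0 Ψ) (hinv : ∀ g : N, ∀ h ∈ N0, Ψ (g * h * g⁻¹) = Ψ h) {g0 : N}
    (hg0 : g0 ∈ N0) (hne : Ψ g0 ≠ 0) : ∃ φ : Additive N →+ ℂ, φ ≠ 0 := by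
  classical
  let K : Subgroup N :=
    { carrier := {g | g ∈ N0 ∧ Ψ g = 0}
      mul_mem' := by
        rintro u v ⟨h1, h2⟩ ⟨h3, h4⟩
        exact ⟨N0.mul_mem h1 h3, by rw [hΨ.mul _ h1 _ h3, h2, h4, add_zero]⟩
      one_mem' := ⟨N0.one_mem, hΨ.one⟩
      inv_mem' := by
        rintro u ⟨h1, h2⟩
        exact ⟨N0.inv_mem h1, by rw [hΨ.inv h1, h2, neg_zero]⟩ }
  have hK : K.Normal := ⟨by
    rintro u ⟨h1, h2⟩ g
    exact ⟨hn.conj_mem u h1 g, by rw [hinv g u h1, h2]⟩⟩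
  have hcen : N0.map (QuotientGroup.mk' K) ≤ Subgroup.center (N ⧸ K) := by
    rintro _ ⟨h, hh, rfl⟩
    rw [Subgroup.mem_center_iff]
    intro q
    obtain ⟨g, rfl⟩ := QuotientGroup.mk'_surjective K q
    rw [← map_mul, ← map_mul, QuotientGroup.mk'_eq_mk']
    refine ⟨(g * h)⁻¹ * (h * g), ⟨?_, ?_⟩, by group⟩
    · have h1 : (g * h)⁻¹ * (h * g) = h⁻¹ * (g⁻¹ * h * g) := by group
      rw [h1]
      have h2 := hn.conj_mem h hh g⁻¹
      rw [inv_inv] at h2
      exact N0.mul_mem (N0.inv_mem hh) h2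
    · have h1 : (g * h)⁻¹ * (h * g) = h⁻¹ * (g⁻¹ * h * g⁻¹⁻¹) := by group
      rw [h1, hΨ.mul _ (N0.inv_mem hh) _ (hn.conj_mem h hh g⁻¹), hinv g⁻¹ h hh, hΨ.inv hh]
      ring
  have hfc : (Subgroup.center (N ⧸ K)).FiniteIndex := by
    have h1 : (N0.map (QuotientGroup.mk' K)).FiniteIndex := by
      refine ⟨fun h0 => hf.index_ne_zero ?_⟩
      have h2 := Subgroup.index_map_dvd N0 (QuotientGroup.mk'_surjective K)
      rw [h0] at h2
      exact Nat.eq_zero_of_zero_dvd h2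
    exact Subgroup.finiteIndex_of_le hcen
  set c := (Subgroup.center (N ⧸ K)).index with hc
  set M := c * N0.index with hM
  have hM0 : M ≠ 0 := mul_ne_zero hfc.index_ne_zero hf.index_ne_zero
  have hpow : ∀ g : N, g ^ M ∈ N0 := by
    intro g
    rw [hM, pow_mul]
    exact N0.pow_index_mem _
  let φ : Additive N →+ ℂ :=
    { toFun := fun g => Ψ ((Additive.toMul g) ^ M)
      map_zero' := by simp [hΨ.one]
      map_add' := by
        intro u v
        change Ψ ((Additive.toMul u * Additive.toMul v) ^ M) = _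
        set g := Additive.toMul u
        set h := Additive.toMul v
        have h1 : (QuotientGroup.mk' K g * QuotientGroup.mk' K h) ^ c =
            QuotientGroup.mk' K g ^ c * QuotientGroup.mk' K h ^ c := by
          have h2 := map_mul (MonoidHom.transferCenterPow (N ⧸ K)) (QuotientGroup.mk' K g)
            (QuotientGroup.mk' K h)
          have h3 := congrArg Subtype.val h2
          rw [Subgroup.coe_mul, MonoidHom.transferCenterPow_apply,
            MonoidHom.transferCenterPow_apply, MonoidHom.transferCenterPow_apply] at h3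
          exact h3
        have h4 : Commute (QuotientGroup.mk' K g ^ c) (QuotientGroup.mk' K h ^ c) := by
          have h5 : QuotientGroup.mk' K g ^ c ∈ Subgroup.center (N ⧸ K) :=
            Subgroup.pow_index_mem _ _
          exact (Subgroup.mem_center_iff.mp h5 _).symm
        have h6 : QuotientGroup.mk' K ((g * h) ^ M) = QuotientGroup.mk' K (g ^ M * h ^ M) := by
          rw [map_pow, map_mul, map_mul, map_pow, map_pow, hM, pow_mul, h1, h4.mul_pow,
            pow_mul, pow_mul]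
        rw [QuotientGroup.mk'_eq_mk'] at h6
        obtain ⟨z, ⟨hz1, hz2⟩, hz⟩ := h6
        rw [← hΨ.mul _ (hpow g) _ (hpow h), ← hz, hΨ.mul _ (hpow _) _ hz1, hz2, add_zero] }
  refine ⟨φ, fun h0 => ?_⟩
  have h1 := DFunLike.congr_fun h0 (Additive.ofMul g0)
  have h2 : φ (Additive.ofMul g0) = Ψ (g0 ^ M) := rfl
  rw [h2, hΨ.pow hg0, AddMonoidHom.zero_apply] at h1
  rcases mul_eq_zero.mp h1 with h | h
  · exact hM0 (by exact_mod_cast h)
  · exact hne h

/-- the case `τ = 1`: invariance. -/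
theorem caseB {α : MulAut N} {x : N} {e : ℕ} (he : 0 < e) {N0 : Subgroup N} [hn : N0.Normal]
    (htriv : ∀ g : N, (α ^ (e : ℤ)) g * g⁻¹ ∈ N0)
    (hform : ∀ g : N, ∃ p r : ℤ, g = Y α x p * (Y α x r)⁻¹) {Ψ : N → ℂ} (hΨ : HomOn N0 Ψ)
    (hτ : ∀ g ∈ N0, Ψ ((α ^ (e : ℤ)) g) = Ψ g)
    (hα : ∀ g : N, α g ∈ N0 ↔ g ∈ N0) (hαN : ∀ g ∈ N0, (α ^ (e : ℤ)) g ∈ N0)
    {g0 : N} (hg0 : g0 ∈ N0) (hne : Ψ g0 ≠ 0) : ∀ g : N, ∀ h ∈ N0, Ψ (g * h * g⁻¹) = Ψ h := by
  -- the character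
  have h1 : ∀ g : N, ∃ χ : ℂ, ∀ h ∈ N0, Ψ (g * h * g⁻¹) = χ * Ψ h := by
    intro g
    refine onedim (Ψ₁ := Ψ) (Ψ₂ := fun h => Ψ (g * h * g⁻¹)) he htriv hform hαN hΨ ⟨?_⟩ hτ ?_
      hg0 hne
    · intro u hu v hv
      rw [← hΨ.mul _ (hn.conj_mem u hu g) _ (hn.conj_mem v hv g)]
      congr 1; group
    · intro h hh
      have hu : g * ((α ^ (e : ℤ)) g)⁻¹ ∈ N0 := by
        have := N0.inv_mem (htriv g)
        simpa using this
      have h2 : g * (α ^ (e : ℤ)) h * g⁻¹ = (g * ((α ^ (e : ℤ)) g)⁻¹) *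
          (α ^ (e : ℤ)) (g * h * g⁻¹) * (g * ((α ^ (e : ℤ)) g)⁻¹)⁻¹ := by
        rw [map_mul, map_mul, map_inv]; group
      rw [h2, hΨ.conj hu (hαN _ (hn.conj_mem h hh g)), hτ _ (hn.conj_mem h hh g)]
  choose χ hχ using h1
  obtain ⟨ζ, hζ⟩ : ∃ ζ : ℂ, ∀ h ∈ N0, Ψ (α h) = ζ * Ψ h := by
    refine onedim (Ψ₁ := Ψ) (Ψ₂ := fun h => Ψ (α h)) he htriv hform hαN hΨ ⟨?_⟩ hτ ?_ hg0 hne
    · intro u hu v hv
      rw [map_mul, hΨ.mul _ ((hα u).mpr hu) _ ((hα v).mpr hv)]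
    · intro h hh
      have h2 : α ((α ^ (e : ℤ)) h) = (α ^ (e : ℤ)) (α h) := by
        have h3 : α * α ^ (e : ℤ) = α ^ (e : ℤ) * α := (Commute.self_zpow α e)
        exact DFunLike.congr_fun h3 h
      rw [h2, hτ _ ((hα h).mpr hh)]
  obtain ⟨g1, hg1⟩ : ∃ g1, α g1 = g0 := α.surjective g0
  have hg1N : g1 ∈ N0 := by rw [← hα, hg1]; exact hg0
  have hΨ1 : Ψ g0 = ζ * Ψ g1 := by rw [← hg1]; exact hζ g1 hg1N
  have hχα : ∀ g, χ (α g) = χ g := by
    intro g
    have h2 := hχ (α g) g0 hg0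
    have h3 : α g * g0 * (α g)⁻¹ = α (g * g1 * g⁻¹) := by
      rw [map_mul, map_mul, map_inv, hg1]
    rw [h3, hζ _ (hn.conj_mem g1 hg1N g), hχ g g1 hg1N] at h2
    apply mul_right_cancel₀ hne
    rw [← h2, hΨ1]; ring
  have hχmul : ∀ g g', χ (g * g') = χ g * χ g' := by
    intro g g'
    have h2 := hχ (g * g') g0 hg0
    have h3 : g * g' * g0 * (g * g')⁻¹ = g * (g' * g0 * g'⁻¹) * g⁻¹ := by group
    rw [h3, hχ g _ (hn.conj_mem g0 hg0 g'), hχ g' g0 hg0] at h2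
    apply mul_right_cancel₀ hne
    rw [← h2]; ring
  have hχ1 : χ 1 = 1 := by
    have h2 := hχ 1 g0 hg0
    simp only [one_mul, inv_one, mul_one] at h2
    apply mul_right_cancel₀ hne
    rw [← h2, one_mul]
  have hχY : ∀ i : ℤ, χ (Y α x i) = χ (Y α x 0) := by
    intro i
    induction i using Int.induction_on with
    | zero => rfl
    | succ i ih => rw [← ih, ← hχα (Y α x i), Y_one, add_comm]
    | pred i ih =>
      rw [← ih, ← hχα (Y α x (-i - 1)), Y_one]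
      congr 2; ring
  have hχt : ∀ g, χ g = 1 := by
    intro g
    obtain ⟨p, r, hpr⟩ := hform g
    have h2 : χ (Y α x r) * χ (Y α x r)⁻¹ = 1 := by
      rw [← hχmul, mul_inv_cancel, hχ1]
    rw [hpr, hχmul, hχY p, ← hχY r, h2]
  intro g h hh
  rw [hχ g h hh, hχt, one_mul]

/-- homomorphisms to `ℂ` of a finitely generated group. -/
theorem fd_hom' (W : Type*) [Group W] (h1 : Group.FG W) :
    FiniteDimensional ℂ (Additive W →+ ℂ) := by
  obtain ⟨S, hS⟩ := Group.fg_def.mp h1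
  let ev : (Additive W →+ ℂ) →ₗ[ℂ] (S → ℂ) :=
    { toFun := fun ψ s => ψ (Additive.ofMul (s : W))
      map_add' := fun _ _ => rfl
      map_smul' := fun _ _ => rfl }
  apply FiniteDimensional.of_injective ev
  intro ψ φ h
  have h2 : ∀ s ∈ S, ψ (Additive.ofMul s) = φ (Additive.ofMul s) := fun s hs =>
    congrFun h ⟨s, hs⟩
  have h3 : AddMonoidHom.toMultiplicativeRight ψ = AddMonoidHom.toMultiplicativeRight φ := by
    apply MonoidHom.eq_of_eqOn_dense hS
    intro s hs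
    have := h2 s hs
    simp only [AddMonoidHom.toMultiplicativeRight]
    exact congrArg Multiplicative.ofAdd this
  exact AddMonoidHom.toMultiplicativeRight.injective h3

theorem eig' (W : Type*) [Group W] (hfg : Group.FG W) (c : W →* W)
    (ψ0 : Additive W →+ ℂ) (h0 : ψ0 ≠ 0) :
    ∃ (τ : ℂ) (ψ : Additive W →+ ℂ), ψ ≠ 0 ∧
      ∀ w : W, ψ (Additive.ofMul (c w)) = τ * ψ (Additive.ofMul w) := by
  have := fd_hom' W hfg
  have : Nontrivial (Additive W →+ ℂ) := ⟨ψ0, 0, h0⟩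
  let ρ : Module.End ℂ (Additive W →+ ℂ) :=
    { toFun := fun ψ => ψ.comp (MonoidHom.toAdditive c)
      map_add' := fun _ _ => rfl
      map_smul' := fun _ _ => rfl }
  obtain ⟨τ, hτ⟩ := Module.End.exists_eigenvalue ρ
  obtain ⟨ψ, hψ⟩ := hτ.exists_hasEigenvector
  refine ⟨τ, ψ, hψ.2, ?_⟩
  intro w
  have h1 := hψ.apply_eq_smul
  have h2 := DFunLike.congr_fun h1 (Additive.ofMul w)
  simpa [ρ] using h2

/-- **invariant finite-index subgroups have finite abelianization.** -/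
theorem fab_inv (hfg : Group.FG N) (hom0 : ∀ φ : Additive N →+ ℂ, φ = 0)
    {α : MulAut N} {x : N} (hform : ∀ g : N, ∃ p r : ℤ, g = Y α x p * (Y α x r)⁻¹)
    (N0 : Subgroup N) [hn : N0.Normal] [hf : N0.FiniteIndex]
    (hα : ∀ g : N, α g ∈ N0 ↔ g ∈ N0) (ψ0 : Additive N0 →+ ℂ) : ψ0 = 0 := by
  classical
  by_contra h0
  -- powers of `α` preserve `N0`
  have hαk : ∀ (k : ℕ) (g : N), (α ^ k) g ∈ N0 ↔ g ∈ N0 := by
    intro k
    induction k with
    | zero => intro g; rfl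
    | succ k ih =>
      intro g
      rw [pow_succ']
      change α ((α ^ k) g) ∈ N0 ↔ _
      rw [hα, ih]
  -- the exponent `e`
  obtain ⟨e, he, htriv⟩ : ∃ e : ℕ, 0 < e ∧ ∀ g : N, (α ^ (e : ℤ)) g * g⁻¹ ∈ N0 := by
    have hle : N0 ≤ N0.comap α.toMonoidHom := fun g hg => (hα g).mpr hg
    let β : N ⧸ N0 →* N ⧸ N0 := QuotientGroup.map N0 N0 α.toMonoidHom hle
    have hβ : ∀ g : N, β (QuotientGroup.mk' N0 g) = QuotientGroup.mk' N0 (α g) := fun g => rfl
    have hβinj : Function.Injective β := by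
      rw [injective_iff_map_eq_one]
      intro q hq
      obtain ⟨g, rfl⟩ := QuotientGroup.mk'_surjective N0 q
      rw [hβ] at hq
      have h1 : α g ∈ N0 := (QuotientGroup.eq_one_iff _).mp hq
      exact (QuotientGroup.eq_one_iff _).mpr ((hα g).mp h1)
    have : Finite (N ⧸ N0) := Subgroup.finite_quotient_of_finiteIndex
    have hβbij : Function.Bijective β := Finite.injective_iff_bijective.mp hβinj
    let P : Equiv.Perm (N ⧸ N0) := Equiv.ofBijective β hβbij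
    have hP : ∀ (k : ℕ) (g : N), (P ^ k) (QuotientGroup.mk' N0 g) =
        QuotientGroup.mk' N0 ((α ^ k) g) := by
      intro k
      induction k with
      | zero => intro g; rfl
      | succ k ih =>
        intro g
        rw [pow_succ', pow_succ']
        change P ((P ^ k) _) = QuotientGroup.mk' N0 (α ((α ^ k) g))
        rw [ih]
        exact hβ _
    refine ⟨orderOf P, orderOf_pos P, ?_⟩
    intro g
    have h1 := hP (orderOf P) g
    rw [pow_orderOf_eq_one] at h1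
    have h2 : QuotientGroup.mk' N0 g = QuotientGroup.mk' N0 ((α ^ orderOf P) g) := h1
    rw [zpow_natCast]
    have h3 : QuotientGroup.mk' N0 ((α ^ orderOf P) g * g⁻¹) = 1 := by
      rw [map_mul, ← h2, ← map_mul, mul_inv_cancel, map_one]
    exact (QuotientGroup.eq_one_iff _).mp h3
  have hαe : ∀ g ∈ N0, (α ^ (e : ℤ)) g ∈ N0 := by
    intro g hg
    rw [zpow_natCast, hαk]; exact hg
  let c : N0 →* N0 :=
    { toFun := fun g => ⟨(α ^ (e : ℤ)) g, hαe g g.2⟩
      map_one' := by ext; simp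
      map_mul' := by intro u v; ext; simp }
  have hfg0 : Group.FG N0 := Subgroup.fg_of_index_ne_zero N0
  obtain ⟨τ, ψ, hψ, hτ⟩ := eig' N0 hfg0 c ψ0 h0
  obtain ⟨w, hw⟩ : ∃ w : N0, ψ (Additive.ofMul w) ≠ 0 := by
    by_contra hcon
    push Not at hcon
    apply hψ
    ext w
    exact hcon (Additive.toMul w)
  set Ψ : N → ℂ := fun g => if h : g ∈ N0 then ψ (Additive.ofMul (⟨g, h⟩ : N0)) else 0 with hΨdef
  have hΨ : HomOn N0 Ψ := ⟨by
    intro g hg g' hg'
    simp only [hΨdef, hg, hg', Subgroup.mul_mem _ hg hg', dif_pos]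
    rw [← map_add, ← ofMul_mul]; rfl⟩
  have hΨτ : ∀ g ∈ N0, Ψ ((α ^ (e : ℤ)) g) = τ * Ψ g := by
    intro g hg
    simp only [hΨdef, hg, hαe g hg, dif_pos]
    exact hτ ⟨g, hg⟩
  have hΨw : Ψ w ≠ 0 := by
    simp only [hΨdef, w.2, dif_pos]
    exact hw
  have hτ0 : τ ≠ 0 := by
    intro hτ0
    apply hΨw
    obtain ⟨v, hv⟩ : ∃ v, (α ^ (e : ℤ)) v = w := (α ^ (e : ℤ)).surjective w
    have hvN : v ∈ N0 := by
      rw [← hαk e, ← zpow_natCast, hv]; exact w.2
    rw [← hv, hΨτ v hvN, hτ0, zero_mul]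
  by_cases hτ1 : τ = 1
  · have hΨτ' : ∀ g ∈ N0, Ψ ((α ^ (e : ℤ)) g) = Ψ g := by
      intro g hg
      rw [hΨτ g hg, hτ1, one_mul]
    have hinv := caseB he htriv hform hΨ hΨτ' hα hαe w.2 hΨw
    obtain ⟨φ, hφ⟩ := transfer_hom N0 hΨ hinv w.2 hΨw
    exact hφ (hom0 φ)
  · exact caseA he htriv hform hΨ hτ0 hτ1 hΨτ hαe w.2 hΨw

end MP302.H50
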