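import Mathlib
import Pool.Agent.Work.MP_302c96_al.H50.Alg

/-! Locally indicable groups `G = ABA`, `A`, `B` conjugate cyclic. -/

namespace MP302.H50

variable {G : Type*} [Group G]

/-- conjugation by `a` on `W`. -/
def cj (a : G) (W : Subgroup G) (hc : ∀ w ∈ W, a * w * a⁻¹ ∈ W) : W →* W where
  toFun w := ⟨a * w * a⁻¹, hc w w.2⟩
  map_one' := by ext; simp
  map_mul' u v := by ext; simp

theorem fd_hom (W : Subgroup G) (hfg : W.FG) : FiniteDimensional ℂ (Additive W →+ ℂ) := by
  have h1 : Group.FG W := (Group.fg_iff_subgroup_fg W).mpr hfg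
  obtain ⟨S, hS⟩ := Group.fg_def.mp h1
  let ev : (Additive W →+ ℂ) →ₗ[ℂ] (S → ℂ) :=
    { toFun := fun ψ s => ψ (Additive.ofMul (s : W))
      map_add' := fun _ _ => rfl
      map_smul' := fun _ _ => rfl }
  apply FiniteDimensional.of_injective ev
  intro ψ φ h
  have h2 : ∀ s ∈ S, ψ (Additive.ofMul s) = φ (Additive.ofMul s) := fun s hs =>
    congrFun h ⟨s, hs⟩
  have h3 : AddMonoidHom.toMultiplicativeRight ψ = AddMonoidHom.toMultiplicativeRight φ := by
    apply MonoidHom.eq_of_eqOn_dense hS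
    intro s hs
    have := h2 s hs
    simp only [AddMonoidHom.toMultiplicativeRight]
    exact congrArg Multiplicative.ofAdd this
  exact AddMonoidHom.toMultiplicativeRight.injective h3

theorem eig (a : G) (W : Subgroup G) (hfg : W.FG) (hc : ∀ w ∈ W, a * w * a⁻¹ ∈ W)
    (ψ0 : Additive W →+ ℂ) (h0 : ψ0 ≠ 0) :
    ∃ (τ : ℂ) (ψ : Additive W →+ ℂ), ψ ≠ 0 ∧
      ∀ w : W, ψ (Additive.ofMul (cj a W hc w)) = τ * ψ (Additive.ofMul w) := by
  have := fd_hom W hfg
  have : Nontrivial (Additive W →+ ℂ) := ⟨ψ0, 0, h0⟩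
  let ρ : Module.End ℂ (Additive W →+ ℂ) :=
    { toFun := fun ψ => ψ.comp (MonoidHom.toAdditive (cj a W hc))
      map_add' := fun _ _ => rfl
      map_smul' := fun _ _ => rfl }
  obtain ⟨τ, hτ⟩ := Module.End.exists_eigenvalue ρ
  obtain ⟨ψ, hψ⟩ := hτ.exists_hasEigenvector
  refine ⟨τ, ψ, hψ.2, ?_⟩
  intro w
  have h1 := hψ.apply_eq_smul
  have h2 := DFunLike.congr_fun h1 (Additive.ofMul w)
  simpa [ρ] using h2

theorem contra (a x : G) (W : Subgroup G) (hfg : W.FG) (hc : ∀ w ∈ W, a * w * a⁻¹ ∈ W)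
    (L : ℤ) (hL : X a x L ∈ W)
    (hform : ∀ g ∈ W, ∃ p r : ℤ, g = X a x p * (X a x r)⁻¹)
    (ψ0 : Additive W →+ ℂ) (h0 : ψ0 ≠ 0) : False := by
  classical
  obtain ⟨τ, ψ, hψ, hτ⟩ := eig a W hfg hc ψ0 h0
  obtain ⟨w, hw⟩ : ∃ w : W, ψ (Additive.ofMul w) ≠ 0 := by
    by_contra hcon
    push Not at hcon
    apply hψ
    ext w
    exact hcon (Additive.toMul w)
  set u := ψ (Additive.ofMul w) with hu
  -- the function on G
  set Ψ : G → ℂ := fun g => if h : g ∈ W then ψ (Additive.ofMul (⟨g, h⟩ : W)) else 0 with hΨ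
  have hΨmul : ∀ g ∈ W, ∀ g' ∈ W, Ψ (g * g') = Ψ g + Ψ g' := by
    intro g hg g' hg'
    simp only [hΨ, hg, hg', Subgroup.mul_mem _ hg hg', dif_pos]
    rw [← map_add, ← ofMul_mul]; rfl
  have hΨinv : ∀ g ∈ W, Ψ g⁻¹ = - Ψ g := by
    intro g hg
    simp only [hΨ, hg, Subgroup.inv_mem _ hg, dif_pos]
    rw [← map_neg, ← ofMul_inv]; rfl
  have hΨone : Ψ 1 = 0 := by
    simp only [hΨ, Subgroup.one_mem, dif_pos]
    exact map_zero ψ
  have hΨconj : ∀ g ∈ W, Ψ (a * g * a⁻¹) = τ * Ψ g := by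
    intro g hg
    simp only [hΨ, hg, hc g hg, dif_pos]
    exact hτ ⟨g, hg⟩
  have hΨpow : ∀ n : ℕ, Ψ ((w : G) ^ n) = n * u := by
    intro n
    have h1 : ((w : G) ^ n) ∈ W := Subgroup.pow_mem _ w.2 n
    simp only [hΨ, h1, dif_pos]
    have h2 : (⟨(w : G) ^ n, h1⟩ : W) = w ^ n := rfl
    rw [h2, ofMul_pow, map_nsmul, nsmul_eq_mul]
  have hX : ∀ i : ℤ, X a x i ∈ W → Ψ (X a x (i + 1)) = τ * Ψ (X a x i) := by
    intro i hi
    rw [← conj_X]
    exact hΨconj _ hi
  -- values of Ψ on W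
  have hval : ∀ g ∈ W, Ψ g = 0 ∨ ∃ p r : ℤ, p ≠ r ∧ X a x p ∈ W ∧ X a x r ∈ W ∧
      Ψ g = Ψ (X a x p) - Ψ (X a x r) := by
    intro g hg
    obtain ⟨p, r, hpr⟩ := hform g hg
    by_cases h : p = r
    · left
      rw [hpr, h]; simp [hΨone]
    · right
      rw [hpr] at hg
      obtain ⟨hp, hr⟩ := level hc hL h hg
      refine ⟨p, r, h, hp, hr, ?_⟩
      rw [hpr, hΨmul _ hp _ (Subgroup.inv_mem _ hr), hΨinv _ hr]; ring
  by_cases hτ0 : τ = 0
  · -- τ = 0
    have hz : ∀ i j : ℤ, i < j → X a x i ∈ W → Ψ (X a x j) = 0 := by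
      intro i j hij hi
      have h1 : X a x (j - 1) ∈ W := X_mem_up hc hi _ (by omega)
      have h2 := hX _ h1
      rw [hτ0, zero_mul, sub_add_cancel] at h2
      exact h2
    have hv : ∀ g ∈ W, Ψ g ≠ 0 → ∃ m : ℤ, X a x m ∈ W ∧ (∀ i < m, X a x i ∉ W) ∧
        (Ψ g = Ψ (X a x m) ∨ Ψ g = - Ψ (X a x m)) := by
      intro g hg hne
      rcases hval g hg with h | ⟨p, r, hpr, hp, hr, h⟩
      · exact absurd h hne
      · rcases lt_or_gt_of_ne hpr with hlt | hlt
        · have h1 := hz p r hlt hp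
          rw [h1, sub_zero] at h
          refine ⟨p, hp, ?_, Or.inl h⟩
          intro i hi hmem
          apply hne
          rw [h, hz i p hi hmem]
        · have h1 := hz r p hlt hr
          rw [h1, zero_sub] at h
          refine ⟨r, hr, ?_, Or.inr h⟩
          intro i hi hmem
          apply hne
          rw [h, hz i r hi hmem, neg_zero]
    have e1 := hΨpow 1
    have e2 := hΨpow 2
    obtain ⟨m1, g1, g1', g1''⟩ := hv ((w : G) ^ 1) (Subgroup.pow_mem _ w.2 1)
      (by rw [e1]; simpa using hw)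
    obtain ⟨m2, g2, g2', g2''⟩ := hv ((w : G) ^ 2) (Subgroup.pow_mem _ w.2 2)
      (by rw [e2]; simpa using hw)
    have hm : m1 = m2 := by
      rcases lt_trichotomy m1 m2 with h | h | h
      · exact absurd g1 (g2' m1 h)
      · exact h
      · exact absurd g2 (g1' m2 h)
    subst hm
    rw [e1] at g1''
    rw [e2] at g2''
    push_cast at g1'' g2''
    rw [one_mul] at g1''
    apply hw
    rcases g1'' with h1 | h1 <;> rcases g2'' with h2 | h2
    · have : u = 0 := by linear_combination h2 - h1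
      exact this
    · have : 3 * u = 0 := by linear_combination h2 + h1
      simpa using this
    · have : 3 * u = 0 := by linear_combination h2 + h1
      simpa using this
    · have : u = 0 := by linear_combination h2 - h1
      exact this
  · -- τ ≠ 0
    have hup : ∀ (n : ℕ) (i : ℤ), X a x i ∈ W → Ψ (X a x (i + n)) = τ ^ n * Ψ (X a x i) := by
      intro n i hi
      induction n with
      | zero => simp
      | succ n ih =>
        have h1 : X a x (i + n) ∈ W := X_mem_up hc hi _ (by omega)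
        have h2 := hX _ h1
        rw [ih] at h2
        push_cast
        rw [← add_assoc, h2, pow_succ]; ring
    have hall : ∀ i : ℤ, X a x i ∈ W → Ψ (X a x i) = (Ψ (X a x L) * τ ^ (-L)) * τ ^ i := by
      intro i hi
      rcases le_total L i with h | h
      · obtain ⟨n, rfl⟩ := Int.le.dest h
        rw [hup n L hL, zpow_add₀ hτ0, zpow_natCast, zpow_neg]
        field_simp
      · obtain ⟨n, hn⟩ := Int.le.dest h
        have h1 := hup n i hi
        rw [hn] at h1
        rw [h1, ← hn, neg_add, zpow_add₀ hτ0, zpow_neg, zpow_neg, zpow_natCast]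
        field_simp
    set κ := Ψ (X a x L) * τ ^ (-L) with hκ
    apply count τ (κ / u) hτ0
    intro n hn
    rcases hval ((w : G) ^ n) (Subgroup.pow_mem _ w.2 n) with h | ⟨p, r, hpr, hp, hr, h⟩
    · exfalso
      rw [hΨpow] at h
      rcases mul_eq_zero.mp h with h | h
      · have : n = 0 := by exact_mod_cast h
        omega
      · exact hw h
    · refine ⟨p, r, ?_⟩
      rw [hΨpow, hall p hp, hall r hr] at h
      field_simp
      rw [h]; ring

theorem pos_case (a x : G) (f : G →* Multiplicative ℤ) (hx : x ≠ 1) (hfx : f x = 1)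
    (hform : ∀ g : G, f g = 1 → ∃ p r : ℤ, g = X a x p * (X a x r)⁻¹)
    (hLI : ∀ H : Subgroup G, H ≤ f.ker → H.FG → H ≠ ⊥ → ∃ ψ : H →* Multiplicative ℤ, ψ ≠ 1)
    (p r : ℤ) (hpr : p ≠ r) (h2 : x ^ 2 = X a x p * (X a x r)⁻¹) (hM : 0 < max p r) :
    False := by
  set L := min 0 (min p r) with hL
  set M := max p r with hMdef
  have hLM : L < M := by omega
  have hmem : ∀ i : ℤ, L ≤ i → i < M → X a x i ∈ Win a x L M := fun i h h' =>
    Subgroup.subset_closure ⟨i, ⟨h, h'⟩, rfl⟩
  have hx0 : x ∈ Win a x L M := by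
    have := hmem 0 (by omega) hM
    rwa [X_zero] at this
  have hXM : X a x M ∈ Win a x L M := by
    rcases lt_or_gt_of_ne hpr with h | h
    · have hp := hmem p (by omega) (by omega)
      have hr : M = r := by omega
      have h3 : X a x M = (x ^ 2)⁻¹ * X a x p := by
        rw [hr, h2]; group
      rw [h3]
      exact Subgroup.mul_mem _ (Subgroup.inv_mem _ (Subgroup.pow_mem _ hx0 2)) hp
    · have hr := hmem r (by omega) (by omega)
      have hp : M = p := by omega
      have h3 : X a x M = (x ^ 2) * X a x r := by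
        rw [hp, h2]; group
      rw [h3]
      exact Subgroup.mul_mem _ (Subgroup.pow_mem _ hx0 2) hr
  have hc := win_conj hLM hXM
  have hker : Win a x L M ≤ f.ker := by
    unfold Win
    rw [Subgroup.closure_le]
    rintro y ⟨i, -, rfl⟩
    simp only [SetLike.mem_coe, MonoidHom.mem_ker, X, map_mul, map_inv, hfx, mul_one]
    simp
  have hbot : Win a x L M ≠ ⊥ := by
    intro hb
    rw [hb, Subgroup.mem_bot] at hx0
    exact hx hx0
  obtain ⟨ψ, hψ⟩ := hLI _ hker (win_fg a x L M) hbot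
  -- the hom to ℂ
  let ψ0 : Additive (Win a x L M) →+ ℂ :=
    (Int.castAddHom ℂ).comp (MonoidHom.toAdditiveLeft ψ)
  have h0 : ψ0 ≠ 0 := by
    intro h
    apply hψ
    ext w
    have := DFunLike.congr_fun h (Additive.ofMul w)
    simp only [ψ0, AddMonoidHom.coe_comp, Function.comp_apply, Int.coe_castAddHom,
      AddMonoidHom.zero_apply, Int.cast_eq_zero] at this
    exact this
  exact contra a x _ (win_fg a x L M) hc L (hmem L le_rfl hLM)
    (fun g hg => hform g (hker hg)) ψ0 h0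

/-- If `G = ABA` with `A = ⟨a⟩`, `B = ⟨x a x⁻¹⟩`, `f : G → ℤ` is nontrivial and every nontrivial
finitely generated subgroup of the kernel has a nontrivial homomorphism to `ℤ`, then `G = A`. -/
theorem core (a x : G) (hABA : ∀ g : G, ∃ i j k : ℤ, g = a ^ i * (x * a * x⁻¹) ^ j * a ^ k)
    (f : G →* Multiplicative ℤ) (hf : f ≠ 1)
    (hLI : ∀ H : Subgroup G, H ≤ f.ker → H.FG → H ≠ ⊥ → ∃ ψ : H →* Multiplicative ℤ, ψ ≠ 1) :
    ∀ g : G, g ∈ Subgroup.zpowers a := by
  have hval : ∀ i j k : ℤ, f (a ^ i * (x * a * x⁻¹) ^ j * a ^ k) = f a ^ (i + j + k) := by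
    intro i j k
    have hb : f (x * a * x⁻¹) = f a := by
      rw [map_mul, map_mul, map_inv, mul_comm (f x), mul_inv_cancel_right]
    rw [map_mul, map_mul, map_zpow, map_zpow, map_zpow, hb, zpow_add, zpow_add]
  have hfa : f a ≠ 1 := by
    intro h
    apply hf
    ext g
    obtain ⟨i, j, k, rfl⟩ := hABA g
    rw [hval, h]; simp
  have hpow : ∀ n : ℤ, f a ^ n = 1 → n = 0 := by
    intro n hn
    have h1 : Multiplicative.toAdd (f a ^ n) = 0 := by rw [hn]; rfl
    rw [toAdd_zpow, smul_eq_mul] at h1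
    rcases mul_eq_zero.mp h1 with h | h
    · exact h
    · exfalso; apply hfa
      rw [← toAdd_one] at h
      exact Multiplicative.toAdd.injective h
  -- normalise x
  obtain ⟨i0, j0, k0, hx0⟩ := hABA x
  set s := i0 + j0 + k0 with hs
  set y := x * a ^ (-s) with hy
  have hyb : y * a * y⁻¹ = x * a * x⁻¹ := by
    rw [hy]; group
  have hfy : f y = 1 := by
    rw [hy, map_mul, map_zpow]
    have : f x = f a ^ s := by
      conv_lhs => rw [hx0]
      rw [hval]
    rw [this, ← zpow_add]; simp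
  have hform : ∀ g : G, f g = 1 → ∃ p r : ℤ, g = X a y p * (X a y r)⁻¹ := by
    intro g hg
    obtain ⟨i, j, k, hgk⟩ := hABA g
    rw [hgk, hval] at hg
    have h1 := hpow _ hg
    refine ⟨i, i + j, ?_⟩
    rw [← ker_form, hyb, hgk]
    congr 2
    omega
  by_cases hy1 : y = 1
  · intro g
    obtain ⟨i, j, k, hgk⟩ := hABA g
    rw [← hyb, hy1] at hgk
    rw [hgk]
    simp only [one_mul, inv_one, mul_one]
    exact Subgroup.mul_mem _ (Subgroup.mul_mem _ (Subgroup.zpow_mem_zpowers a i)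
      (Subgroup.zpow_mem_zpowers a j)) (Subgroup.zpow_mem_zpowers a k)
  · exfalso
    -- y ^ 2 ≠ 1
    have hy2 : y ^ 2 ≠ 1 := by
      intro h
      have hle : Subgroup.zpowers y ≤ f.ker := by
        rw [Subgroup.zpowers_le]; exact hfy
      have hne : Subgroup.zpowers y ≠ ⊥ := by
        rw [Ne, Subgroup.zpowers_eq_bot]; exact hy1
      have hfg : (Subgroup.zpowers y).FG := by
        rw [Subgroup.fg_iff]
        exact ⟨{y}, (Subgroup.zpowers_eq_closure y).symm, Set.finite_singleton y⟩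
      obtain ⟨ψ, hψ⟩ := hLI _ hle hfg hne
      apply hψ
      set yy : Subgroup.zpowers y := ⟨y, Subgroup.mem_zpowers y⟩ with hyy
      have h1 : ψ yy = 1 := by
        have h2 : ψ yy ^ 2 = 1 := by
          rw [← map_pow]
          have : yy ^ 2 = 1 := by
            ext; simpa [hyy] using h
          rw [this, map_one]
        have h3 : Multiplicative.toAdd (ψ yy ^ 2) = 0 := by rw [h2]; rfl
        rw [toAdd_pow] at h3
        have h4 : Multiplicative.toAdd (ψ yy) = 0 := by
          simpa using h3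
        rw [← toAdd_one] at h4
        exact Multiplicative.toAdd.injective h4
      ext g
      obtain ⟨n, hn⟩ := Subgroup.mem_zpowers_iff.mp g.2
      have h5 : g = yy ^ n := by
        ext; rw [← hn]; rfl
      rw [h5, map_zpow, h1]; simp
    obtain ⟨p, r, hpr2⟩ := hform (y ^ 2) (by rw [map_pow, hfy, one_pow])
    have hpr : p ≠ r := by
      rintro rfl
      apply hy2
      rw [hpr2]; simp
    by_cases hM : 0 < max p r
    · exact pos_case a y f hy1 hfy hform hLI p r hpr hpr2 hM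
    · -- use a⁻¹
      have hXX : ∀ i : ℤ, X a⁻¹ y (-i) = X a y i := by
        intro i; rw [X_inv]; simp
      have hform' : ∀ g : G, f g = 1 → ∃ p r : ℤ, g = X a⁻¹ y p * (X a⁻¹ y r)⁻¹ := by
        intro g hg
        obtain ⟨p, r, h⟩ := hform g hg
        exact ⟨-p, -r, by rw [hXX, hXX]; exact h⟩
      refine pos_case a⁻¹ y f hy1 hfy hform' hLI (-p) (-r) (by omega) ?_ (by omega)
      rw [hXX, hXX]; exact hpr2

end MP302.H50
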