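import Mathlib
import Pool.Agent.Work.MP_302c96_al.H50.Main

/-! The kernel of a homomorphism to `ℤ` is finitely generated. -/

namespace MP302.H50

/-- covering by `(n+1)^2` cosets. -/
theorem two_cover {W : Type*} [Group W] (U : Subgroup W) (S : Finset W)
    (hU : U.index = 0 ∨ (S.card + 1) ^ 2 < U.index)
    (hcov : ∀ g : W, g ∈ U ∨ (∃ s ∈ S, s⁻¹ * g ∈ U) ∨ (∃ s ∈ S, g * s ∈ U) ∨
      (∃ s ∈ S, ∃ t ∈ S, g = s * t⁻¹)) : False := by
  classical
  let H : Option W × Option W → Subgroup W := fun i =>
    match i with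
    | (none, some t) => U.map (MulAut.conj t).toMonoidHom
    | _ => U
  let c : Option W × Option W → W := fun i =>
    match i with
    | (none, none) => 1
    | (none, some t) => t⁻¹
    | (some s, none) => s
    | (some s, some t) => s * t⁻¹
  have hidx : ∀ i, (H i).index = U.index := by
    rintro ⟨_ | s, _ | t⟩
    · rfl
    · exact Subgroup.index_map_equiv U (MulAut.conj t)
    · rfl
    · rfl
  have h1 := Subgroup.one_le_sum_inv_index_of_leftCoset_cover (H := H) (g := c)
    (s := Finset.insertNone S ×ˢ Finset.insertNone S) (by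
      rw [Set.eq_univ_iff_forall]
      intro g
      simp only [Set.mem_iUnion]
      rcases hcov g with h | ⟨s, hs, h⟩ | ⟨t, ht, h⟩ | ⟨s, hs, t, ht, h⟩
      · refine ⟨(none, none), by simp, ?_⟩
        rw [Set.mem_smul_set_iff_inv_smul_mem]
        simpa [H, c] using h
      · refine ⟨(some s, none), by simp [hs], ?_⟩
        rw [Set.mem_smul_set_iff_inv_smul_mem]
        simpa [H, c] using h
      · refine ⟨(none, some t), by simp [ht], ?_⟩
        rw [Set.mem_smul_set_iff_inv_smul_mem]
        simp only [H, c, inv_inv, smul_eq_mul, SetLike.mem_coe, Subgroup.mem_map]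
        refine ⟨g * t, h, ?_⟩
        simp [MulAut.conj_apply, mul_assoc]
      · refine ⟨(some s, some t), by simp [hs, ht], ?_⟩
        rw [Set.mem_smul_set_iff_inv_smul_mem]
        simp only [H, c, h, smul_eq_mul, SetLike.mem_coe, inv_mul_cancel]
        exact U.one_mem)
  simp only [hidx, Finset.sum_const, Finset.card_product, Finset.card_insertNone] at h1
  rcases hU with h | h
  · rw [h] at h1
    norm_num at h1
  · have h2 : (0 : ℚ) < (U.index : ℚ) := by
      have : 0 < U.index := by omega
      exact_mod_cast this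
    rw [nsmul_eq_mul, ← div_eq_mul_inv, le_div_iff₀ h2, one_mul] at h1
    have h3 : U.index ≤ (S.card + 1) * (S.card + 1) := by exact_mod_cast h1
    have h4 : (S.card + 1) ^ 2 = (S.card + 1) * (S.card + 1) := by ring
    omega

/-- iterates of an endomorphism. -/
def iter {W : Type*} [Group W] (c : W →* W) : ℕ → (W →* W)
  | 0 => MonoidHom.id W
  | (k + 1) => c.comp (iter c k)

theorem iter_zero {W : Type*} [Group W] (c : W →* W) (w : W) : iter c 0 w = w := rfl

theorem iter_succ {W : Type*} [Group W] (c : W →* W) (k : ℕ) (w : W) :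
    iter c (k + 1) w = c (iter c k w) := rfl

theorem tower {W : Type*} [Group W] (c : W →* W) (hinj : Function.Injective c)
    (hne : c.range ≠ ⊤) (k : ℕ) :
    (iter c k).range.index = 0 ∨ 2 ^ k ≤ (iter c k).range.index := by
  have hd : c.range.index ≠ 1 := by
    rw [Ne, Subgroup.index_eq_one]; exact hne
  induction k with
  | zero =>
    right
    have : (iter c 0).range = ⊤ := by
      rw [eq_top_iff]
      intro g _
      exact ⟨g, rfl⟩
    rw [this, Subgroup.index_top, pow_zero]
  | succ k ih =>
    have h1 : (iter c (k + 1)).range = (iter c k).range.map c := by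
      ext g
      constructor
      · rintro ⟨w, rfl⟩
        exact ⟨iter c k w, ⟨w, rfl⟩, rfl⟩
      · rintro ⟨_, ⟨w, rfl⟩, rfl⟩
        exact ⟨w, rfl⟩
    rw [h1, Subgroup.index_map_of_injective _ hinj]
    rcases ih with h | h
    · left; rw [h, zero_mul]
    · rcases Nat.eq_zero_or_pos c.range.index with h2 | h2
      · left; rw [h2, mul_zero]
      · right
        rw [pow_succ]
        exact Nat.mul_le_mul h (by omega)

variable {G : Type*} [Group G]

theorem X_sub (a x : G) (k i : ℤ) : a ^ k * X a x (i - k) * (a ^ k)⁻¹ = X a x i := by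
  rw [conj_pow_X, sub_add_cancel]

/-- **all `X i` are in `W`.** -/
theorem all_mem (a x : G) (W : Subgroup G) (hc : ∀ w ∈ W, a * w * a⁻¹ ∈ W)
    (L : ℤ) (hL : X a x L ∈ W)
    (hform : ∀ g ∈ W, ∃ p r : ℤ, g = X a x p * (X a x r)⁻¹) : ∀ i : ℤ, X a x i ∈ W := by
  classical
  by_contra hcon
  push Not at hcon
  obtain ⟨i0, hi0⟩ := hcon
  -- the threshold
  obtain ⟨T, hT, hT'⟩ : ∃ T : ℤ, X a x T ∈ W ∧ ∀ i < T, X a x i ∉ W := by
    have hex : ∃ s : ℕ, X a x (i0 + s) ∈ W := by
      refine ⟨(L - i0).toNat, ?_⟩
      apply X_mem_up hc hL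
      omega
    refine ⟨i0 + (Nat.find hex : ℕ), Nat.find_spec hex, ?_⟩
    intro i hi hmem
    by_cases h : i ≤ i0
    · exact hi0 (X_mem_up hc hmem _ h)
    · have h1 : (i - i0).toNat < Nat.find hex := by omega
      apply Nat.find_min hex h1
      rw [show i0 + ((i - i0).toNat : ℤ) = i by omega]
      exact hmem
  have hiff : ∀ i, X a x i ∈ W → T ≤ i := by
    intro i hi
    by_contra h
    exact hT' i (by omega) hi
  set c : W →* W := cj a W hc with hcdef
  have hcinj : Function.Injective c := by
    intro u v huv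
    have h1 : a * (u : G) * a⁻¹ = a * v * a⁻¹ := congrArg Subtype.val huv
    ext
    simpa using h1
  have hck : ∀ (k : ℕ) (w : W), ((iter c k w : W) : G) = a ^ (k : ℤ) * w * (a ^ (k : ℤ))⁻¹ := by
    intro k
    induction k with
    | zero => intro w; rw [iter_zero]; simp
    | succ k ih =>
      intro w
      rw [iter_succ]
      have h2 : ((c (iter c k w) : W) : G) = a * (iter c k w : W) * a⁻¹ := rfl
      rw [h2, ih]
      push_cast
      rw [show (k : ℤ) + 1 = 1 + k by ring, zpow_add]
      simp only [zpow_one]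
      group
  have hrange : ∀ (k : ℕ) (i : ℤ) (hi : T + k ≤ i) (h : X a x i ∈ W),
      (⟨X a x i, h⟩ : W) ∈ (iter c k).range := by
    intro k i hi h
    have h1 : X a x (i - k) ∈ W := X_mem_up hc hT _ (by omega)
    refine ⟨⟨X a x (i - k), h1⟩, ?_⟩
    ext
    rw [hck]
    exact X_sub a x k i
  have hne : c.range ≠ ⊤ := by
    intro htop
    have h1 : (⟨X a x T, hT⟩ : W) ∈ c.range := by rw [htop]; trivial
    obtain ⟨w, hw⟩ := h1
    have h2 : a * (w : G) * a⁻¹ = X a x T := congrArg Subtype.val hw
    apply hT' (T - 1) (by omega)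
    have h3 : X a x (T - 1) = w := by
      have h4 := conj_X a x (T - 1)
      rw [sub_add_cancel, ← h2] at h4
      simpa using h4
    rw [h3]; exact w.2
  set S : Finset W := (Finset.univ : Finset (Fin 6)).image
    (fun j : Fin 6 => (⟨X a x (T + (j : ℕ)), X_mem_up hc hT _ (by omega)⟩ : W)) with hS
  have hScard : S.card ≤ 6 := Finset.card_image_le.trans (by simp)
  apply two_cover (iter c 6).range S
  · rcases tower c hcinj hne 6 with h | h
    · exact Or.inl h
    · right
      have : (S.card + 1) ^ 2 ≤ 7 ^ 2 := Nat.pow_le_pow_left (by omega) 2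
      omega
  · intro g
    obtain ⟨p, r, hpr⟩ := hform g g.2
    by_cases h : p = r
    · left
      have : g = 1 := by
        ext; rw [hpr, h]; simp
      rw [this]; exact Subgroup.one_mem _
    · have hg : X a x p * (X a x r)⁻¹ ∈ W := by rw [← hpr]; exact g.2
      obtain ⟨hp, hr⟩ := level hc hL h hg
      have hge : g = (⟨X a x p, hp⟩ : W) * (⟨X a x r, hr⟩ : W)⁻¹ := by
        ext; rw [hpr]; rfl
      have hmemS : ∀ i (hi : X a x i ∈ W), i < T + 6 → (⟨X a x i, hi⟩ : W) ∈ S := by
        intro i hi hlt
        have h1 := hiff i hi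
        rw [hS, Finset.mem_image]
        refine ⟨(⟨(i - T).toNat, by omega⟩ : Fin 6), Finset.mem_univ _, ?_⟩
        ext
        simp only
        congr 1
        omega
      by_cases hp6 : p < T + 6
      · by_cases hr6 : r < T + 6
        · right; right; right
          exact ⟨_, hmemS p hp hp6, _, hmemS r hr hr6, hge⟩
        · right; left
          refine ⟨_, hmemS p hp hp6, ?_⟩
          rw [hge, inv_mul_cancel_left]
          exact Subgroup.inv_mem _ (hrange 6 r (by push_cast; omega) hr)
      · by_cases hr6 : r < T + 6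
        · right; right; left
          refine ⟨_, hmemS r hr hr6, ?_⟩
          rw [hge, inv_mul_cancel_right]
          exact hrange 6 p (by push_cast; omega) hp
        · left
          rw [hge]
          exact Subgroup.mul_mem _ (hrange 6 p (by push_cast; omega) hp)
            (Subgroup.inv_mem _ (hrange 6 r (by push_cast; omega) hr))

end MP302.H50
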