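import Mathlib
import Pool.Agent.Work.MP_302c96_al.H50.T0

/-! The kernel of a homomorphism to `ℤ` is finitely generated with finite abelianization. -/

namespace MP302.H50

variable {G : Type*} [Group G]

theorem ker_closed (a : G) (f : G →* Multiplicative ℤ) :
    ∀ w ∈ f.ker, a * w * a⁻¹ ∈ f.ker := by
  intro w hw
  rw [MonoidHom.mem_ker] at hw ⊢
  rw [map_mul, map_mul, hw, mul_one, ← map_mul, mul_inv_cancel, map_one]

theorem fg_pos (a x : G) (f : G →* Multiplicative ℤ) (hfx : f x = 1)
    (hform : ∀ g : G, f g = 1 → ∃ p r : ℤ, g = X a x p * (X a x r)⁻¹)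
    (p r : ℤ) (hpr : p ≠ r) (h2 : x = X a x p * (X a x r)⁻¹) (hM : 0 < max p r) :
    f.ker.FG := by
  set L := min 0 (min p r) with hL
  set M := max p r with hMdef
  have hLM : L < M := by omega
  have hmem : ∀ i : ℤ, L ≤ i → i < M → X a x i ∈ Win a x L M := fun i h h' =>
    Subgroup.subset_closure ⟨i, ⟨h, h'⟩, rfl⟩
  have hx0 : x ∈ Win a x L M := by
    have := hmem 0 (by omega) hM
    rwa [X_zero] at this
  have hXM : X a x M ∈ Win a x L M := by
    rcases lt_or_gt_of_ne hpr with h | h
    · have hp := hmem p (by omega) (by omega)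
      have hr : M = r := by omega
      have h3 : X a x M = x⁻¹ * X a x p := by
        have h4 : x * X a x r = X a x p := by
          rw [← eq_mul_inv_iff_mul_eq]
          exact h2
        rw [hr, ← h4, inv_mul_cancel_left]
      rw [h3]
      exact Subgroup.mul_mem _ (Subgroup.inv_mem _ hx0) hp
    · have hr := hmem r (by omega) (by omega)
      have hp : M = p := by omega
      have h3 : X a x M = x * X a x r := by
        rw [hp]
        rw [eq_comm, ← eq_mul_inv_iff_mul_eq]
        exact h2
      rw [h3]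
      exact Subgroup.mul_mem _ hx0 hr
  have hc := win_conj hLM hXM
  have hker : Win a x L M ≤ f.ker := by
    unfold Win
    rw [Subgroup.closure_le]
    rintro y ⟨i, -, rfl⟩
    simp only [SetLike.mem_coe, MonoidHom.mem_ker, X, map_mul, map_inv, hfx, mul_one]
    simp
  have hall := all_mem a x (Win a x L M) hc L (hmem L le_rfl hLM) (fun g hg => hform g (hker hg))
  have heq : f.ker = Win a x L M := by
    apply le_antisymm _ hker
    intro g hg
    obtain ⟨p, r, h⟩ := hform g hg
    rw [h]
    exact Subgroup.mul_mem _ (hall p) (Subgroup.inv_mem _ (hall r))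
  rw [heq]
  exact win_fg a x L M

theorem ker_fg (a x : G) (f : G →* Multiplicative ℤ) (hfx : f x = 1)
    (hform : ∀ g : G, f g = 1 → ∃ p r : ℤ, g = X a x p * (X a x r)⁻¹) : f.ker.FG := by
  by_cases hx : x = 1
  · have : f.ker = ⊥ := by
      rw [eq_bot_iff]
      intro g hg
      obtain ⟨p, r, h⟩ := hform g hg
      rw [Subgroup.mem_bot, h, hx]; simp [X]
    rw [this]
    exact Subgroup.FG.bot
  · obtain ⟨p, r, h2⟩ := hform x hfx
    have hpr : p ≠ r := by
      rintro rfl
      apply hx
      rw [h2]; simp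
    by_cases hM : 0 < max p r
    · exact fg_pos a x f hfx hform p r hpr h2 hM
    · have hXX : ∀ i : ℤ, X a⁻¹ x (-i) = X a x i := by
        intro i; rw [X_inv]; simp
      have hform' : ∀ g : G, f g = 1 → ∃ p r : ℤ, g = X a⁻¹ x p * (X a⁻¹ x r)⁻¹ := by
        intro g hg
        obtain ⟨p, r, h⟩ := hform g hg
        exact ⟨-p, -r, by rw [hXX, hXX]; exact h⟩
      refine fg_pos a⁻¹ x f hfx hform' (-p) (-r) (by omega) ?_ (by omega)
      rw [hXX, hXX]; exact h2

theorem ker_hom (a x : G) (f : G →* Multiplicative ℤ) (hfx : f x = 1)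
    (hform : ∀ g : G, f g = 1 → ∃ p r : ℤ, g = X a x p * (X a x r)⁻¹)
    (ψ0 : Additive f.ker →+ ℂ) : ψ0 = 0 := by
  by_contra h0
  exact contra a x f.ker (ker_fg a x f hfx hform) (ker_closed a f) 0
    (by rw [X_zero]; exact hfx) (fun g hg => hform g hg) ψ0 h0

end MP302.H50
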